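import Pool.Agent.TH848.Rec.Gdd

/-!
Steiner systems `S(2,8,1793)` and `S(2,8,1961)` from a Steiner system `S(2,8,225)`.
-/

set_option autoImplicit false
set_option maxRecDepth 100000

namespace Pool.Agent.TH848.Rec

open Pool.Agent.H816R2.KM2 Pool.Agent.TH848.KM

/-- the groups of the design `t79` -/
def H79 : List (List ℕ) := (List.range 9).map fun i => List.range' (7 * i) 7

/-- Blocks covering exactly the pairs of points of different lists. -/
theorem cov_of_tree2 (k v : ℕ) (t : BT) (HL : List (List ℕ))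
    (h1 : t.allB (okB k v) = true) (hlt : ∀ H ∈ HL, ∀ x ∈ H, x < v)
    (h2 : t.size * (k * k - k) ≤ ((Finset.univ : Finset (Fin v)).offDiag.filter
      fun p => ¬ ∃ H ∈ HL, p.1.val ∈ H ∧ p.2.val ∈ H).card)
    (h3 : (t.rows (fun _ B => B) (fun p => p * v) v |||
      listRows (fun _ B => B) (fun p => p * v) v HL == 2 ^ (v * v) - 1) = true) :
    ∃ 𝓑 : Set (Finset (Fin v)), Cov (Fin v) k
      (fun x y => ¬ ∃ H ∈ HL, x.val ∈ H ∧ y.val ∈ H) 𝓑 := by
  classical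
  have h1' := BT.allB_spec _ _ h1
  rw [List.all_eq_true] at h1'
  refine pairE k _ ((t.toList.map (fs v)).toFinset) ?_ ?_ ?_
  · intro B hB
    rw [List.mem_toFinset, List.mem_map] at hB
    obtain ⟨L, hL, rfl⟩ := hB
    obtain ⟨ha, hb, hc⟩ := okB_spec (h1' L hL)
    rw [card_fs v L (by first | exact hb | exact ha) hc]
    first | exact ha | exact hb
  · intro x y hxy hE
    rw [beq_iff_eq] at h3
    have hx := x.2
    have hy := y.2
    have h8 : Nat.testBit (2 ^ (v * v) - 1) (x.val * v + y.val) = true := by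
      rw [Nat.testBit_two_pow_sub_one, decide_eq_true_eq]
      calc x.val * v + y.val < x.val * v + v := by omega
        _ = (x.val + 1) * v := by ring
        _ ≤ v * v := Nat.mul_le_mul_right _ hx
    rw [← h3, Nat.testBit_or, Bool.or_eq_true] at h8
    have hdiv : ∀ p q : ℕ, p < v → q < v → p * v ≤ x.val * v + y.val →
        x.val * v + y.val - p * v = q → p = x.val ∧ q = y.val := by
      intro p q hp hq hle he
      have hpx : p = x.val := by
        rcases Nat.lt_trichotomy p x.val with h | h | h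
        · exfalso
          have : (p + 1) * v ≤ x.val * v := Nat.mul_le_mul_right _ h
          rw [add_mul, one_mul] at this
          omega
        · exact h
        · exfalso
          have : (x.val + 1) * v ≤ p * v := Nat.mul_le_mul_right _ h
          rw [add_mul, one_mul] at this
          omega
      refine ⟨hpx, ?_⟩
      rw [hpx] at he
      omega
    rcases h8 with h8 | h8
    · obtain ⟨B, hB, p, hp, hpv, hle, hmem⟩ := BT.rows_spec _ _ _ _ _ h8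
      obtain ⟨ha, hb, hc⟩ := okB_spec (h1' B hB)
      obtain ⟨e1, e2⟩ := hdiv p _ hpv (hc _ hmem) hle rfl
      refine ⟨fs v B, List.mem_toFinset.2 (List.mem_map.2 ⟨B, hB, rfl⟩), ?_, ?_⟩
      · exact Finset.mem_filter.2 ⟨Finset.mem_univ _, by rw [← e1]; exact hp⟩
      · exact Finset.mem_filter.2 ⟨Finset.mem_univ _, by rw [← e2]; exact hmem⟩
    · obtain ⟨H, hH, p, hp, hpv, hle, hmem⟩ := listRows_spec _ _ _ _ _ h8
      obtain ⟨e1, e2⟩ := hdiv p _ hpv (hlt H hH _ hmem) hle rfl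
      exact absurd ⟨H, hH, by rw [← e1]; exact hp, by rw [← e2]; exact hmem⟩ hE
  · have hc1 : ((t.toList.map (fs v)).toFinset).card ≤ t.size := by
      calc ((t.toList.map (fs v)).toFinset).card ≤ (t.toList.map (fs v)).length :=
            List.toFinset_card_le _
        _ = t.size := by rw [List.length_map, BT.size_spec]
    refine le_trans (Nat.mul_le_mul_right _ hc1) (le_trans h2 (le_of_eq ?_))
    congr 1

theorem h79_rel : ∀ x y : Fin 63, (¬ ∃ H ∈ H79, x.val ∈ H ∧ y.val ∈ H) ↔ x.val / 7 ≠ y.val / 7 := by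
  decide +kernel

theorem gdd79 : ∃ 𝓑 : Set (Finset (Fin 9 × Fin 7)),
    Cov (Fin 9 × Fin 7) 8 (fun x y => x.1 ≠ y.1) 𝓑 := by
  obtain ⟨𝓑, hB⟩ := cov_of_tree2 8 63 t79 H79 (by decide +kernel) (by decide +kernel)
    (by decide +kernel) (by decide +kernel)
  let e : Fin 63 ≃ Fin 9 × Fin 7 := (finProdFinEquiv (m := 9) (n := 7)).symm
  refine ⟨_, cov_congr (cov_map e.toEmbedding hB) ?_⟩
  have he : ∀ x : Fin 63, (e x).1.val = x.val / 7 := by
    intro x
    rfl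
  intro a b _
  constructor
  · rintro ⟨x, y, rfl, rfl, hxy⟩
    rw [h79_rel] at hxy
    intro h
    apply hxy
    rw [← he, ← he]
    exact congrArg Fin.val h
  · intro hab
    refine ⟨e.symm a, e.symm b, e.apply_symm_apply a, e.apply_symm_apply b, ?_⟩
    rw [h79_rel, ← he, ← he, e.apply_symm_apply, e.apply_symm_apply]
    intro h
    exact hab (Fin.ext h)

/-- Removing a block. -/
theorem cov_remove {X : Type} [DecidableEq X] {k : ℕ} {𝓑 : Set (Finset X)} (h : IsS2 X k 𝓑)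
    {B0 : Finset X} (h0 : B0 ∈ 𝓑) :
    Cov X k (fun x y => ¬ (x ∈ B0 ∧ y ∈ B0)) {B | B ∈ 𝓑 ∧ B ≠ B0} := by
  refine ⟨fun B hB => h.1 B hB.1, ?_, ?_⟩
  · rintro B ⟨hB, hne⟩ a ha b hb hab ⟨ha0, hb0⟩
    obtain ⟨C, -, hu⟩ := h.2 a b hab
    exact hne ((hu B ⟨hB, ha, hb⟩).trans (hu B0 ⟨h0, ha0, hb0⟩).symm)
  · intro a b hab hn
    obtain ⟨B, ⟨hB, ha, hb⟩, hu⟩ := h.2 a b hab
    refine ⟨B, ⟨hB, ?_⟩, ha, hb, fun D hD h1 h2 => hu D ⟨hD.1, h1, h2⟩⟩
    rintro rfl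
    exact hn ⟨ha, hb⟩

/-- A Steiner system with a distinguished block, as a sum of types. -/
theorem cov_sum_block {k v : ℕ} {X : Type} [DecidableEq X] [Fintype X]
    (hv2 : 2 ≤ v) (hX : Fintype.card X + k = v)
    (h : ∃ 𝓑 : Set (Finset (Fin v)), IsS2 (Fin v) k 𝓑) :
    ∃ 𝓑 : Set (Finset (X ⊕ Fin k)), Cov (X ⊕ Fin k) k
      (fun x y => ¬ (x.isRight = true ∧ y.isRight = true)) 𝓑 := by
  classical
  obtain ⟨𝓑, h⟩ := h
  obtain ⟨B0, ⟨h0, -, -⟩, -⟩ := h.2 ⟨0, by omega⟩ ⟨1, by omega⟩ (by simp [Fin.ext_iff])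
  have hc := h.1 B0 h0
  have c1 : Fintype.card {x // x ∈ B0} = k := by rw [Fintype.card_coe, hc]
  have c2 : Fintype.card {x // ¬ x ∈ B0} = Fintype.card X := by
    rw [Fintype.card_subtype_compl, c1, Fintype.card_fin]
    omega
  let e : Fin v ≃ X ⊕ Fin k := ((Equiv.sumCompl (fun x => x ∈ B0)).symm.trans
    (Equiv.sumCongr (Fintype.equivFinOfCardEq c1) (Fintype.equivOfCardEq c2))).trans
      (Equiv.sumComm _ _)
  have he : ∀ x, (e x).isRight = true ↔ x ∈ B0 := by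
    intro x
    by_cases hx : x ∈ B0
    · simp [e, Equiv.sumCompl_symm_apply_of_pos hx, hx]
    · simp [e, Equiv.sumCompl_symm_apply_of_neg hx, hx]
  refine ⟨_, cov_congr (cov_map e.toEmbedding (cov_remove h h0)) ?_⟩
  intro a b _
  constructor
  · rintro ⟨x, y, rfl, rfl, hxy⟩
    simp only [Equiv.coe_toEmbedding]
    rw [he, he]
    exact hxy
  · intro hab
    refine ⟨e.symm a, e.symm b, e.apply_symm_apply a, e.apply_symm_apply b, ?_⟩
    rw [← he, ← he, e.apply_symm_apply, e.apply_symm_apply]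
    exact hab

theorem isS2_self (k : ℕ) : ∃ 𝓑 : Set (Finset (Fin k)), IsS2 (Fin k) k 𝓑 := by
  refine ⟨{Finset.univ}, ?_, ?_⟩
  · rintro B rfl
    simp
  · intro a b _
    exact ⟨Finset.univ, ⟨rfl, Finset.mem_univ _, Finset.mem_univ _⟩, fun D hD => hD.1⟩

/-- `1961 = 9 · 217 + 8`. -/
theorem s1961 : ∃ 𝓑 : Set (Finset (Fin 1961)), IsS2 (Fin 1961) 8 𝓑 := by
  obtain ⟨D, hD⟩ := gdd79
  have hG : ∃ 𝓑 : Set (Finset (Fin 9 × (Fin 31 × Fin 7))),
      Cov (Fin 9 × (Fin 31 × Fin 7)) 8 (fun x y => x.1 ≠ y.1) 𝓑 :=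
    ⟨_, gdd_infl (itd_of_fun _ (tdk_ok 9 31 (gp 9 31) gp31_ok)) hD⟩
  have hI : ∃ 𝓑 : Set (Finset ((Fin 31 × Fin 7) ⊕ Fin 8)), Cov ((Fin 31 × Fin 7) ⊕ Fin 8) 8
      (fun x y => ¬ (x.isRight = true ∧ y.isRight = true)) 𝓑 :=
    cov_sum_block (v := 225) (by norm_num) (by simp) ex225
  have e : (Fin 9 × (Fin 31 × Fin 7)) ⊕ Fin 8 ≃ Fin 1961 := Fintype.equivOfCardEq (by simp)
  exact transport 8 e (fillG hG hI (isS2_self 8))

/-- `1793 = 8 · 224 + 1`. -/
theorem s1793 : ∃ 𝓑 : Set (Finset (Fin 1793)), IsS2 (Fin 1793) 8 𝓑 := by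
  have hG : ∃ 𝓑 : Set (Finset (Fin 8 × (Fin 7 × Fin 32))),
      Cov (Fin 8 × (Fin 7 × Fin 32)) 8 (fun x y => x.1 ≠ y.1) 𝓑 :=
    ⟨_, gdd_of_td (td_prod (itd_of_fun _ (tdk_ok 8 7 (gp 8 7) gp7_ok))
      (itd_of_fun _ (tdk_ok 8 32 g32 g32_ok)))⟩
  have e1 : Fin 225 ≃ (Fin 7 × Fin 32) ⊕ Fin 1 := Fintype.equivOfCardEq (by simp)
  have hI : ∃ 𝓑 : Set (Finset ((Fin 7 × Fin 32) ⊕ Fin 1)), Cov ((Fin 7 × Fin 32) ⊕ Fin 1) 8
      (fun x y => ¬ (x.isRight = true ∧ y.isRight = true)) 𝓑 := by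
    obtain ⟨𝓑, h⟩ := transport 8 e1 ex225
    refine ⟨𝓑, cov_congr (cov_of_isS2 h) ?_⟩
    rintro (a | a) (b | b) hab
    · simp
    · simp
    · simp
    · exact absurd (by rw [Subsingleton.elim a b]) hab
  have hW : ∃ 𝓑 : Set (Finset (Fin 1)), IsS2 (Fin 1) 8 𝓑 := by
    refine ⟨∅, by simp, ?_⟩
    intro a b hab
    exact absurd (Subsingleton.elim a b) hab
  have e : (Fin 8 × (Fin 7 × Fin 32)) ⊕ Fin 1 ≃ Fin 1793 := Fintype.equivOfCardEq (by simp)
  exact transport 8 e (fillG hG hI hW)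

end Pool.Agent.TH848.Rec
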