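import Pool.Agent.TH848.Rec.Basic

/-!
An incomplete pairwise balanced design on 136 points with a hole of size 16 and block size 6.
-/

set_option autoImplicit false
set_option maxRecDepth 100000

namespace Pool.Agent.TH848.Rec

open Pool.Agent.H816R2.KM2 Pool.Agent.TH848.KM

def i136_0 : BT :=
  (.node (.node (.node (.node (.node (.node (.leaf [0, 1, 48, 69, 108, 124])
  (.leaf [0, 2, 13, 67, 77, 135]))
  (.node (.leaf [0, 3, 6, 33, 53, 94])
  (.leaf [0, 4, 42, 49, 90, 112])))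
  (.node (.node (.leaf [0, 5, 51, 95, 104, 122])
  (.leaf [0, 7, 14, 36, 50, 60]))
  (.node (.leaf [0, 8, 18, 21, 97, 102])
  (.leaf [0, 9, 12, 65, 78, 114]))))
  (.node (.node (.node (.leaf [0, 10, 24, 103, 113, 128])
  (.leaf [0, 11, 20, 40, 84, 118]))
  (.node (.leaf [0, 15, 26, 41, 79, 123])
  (.leaf [0, 16, 106, 111, 117, 121])))
  (.node (.node (.leaf [0, 17, 76, 93, 116, 129])
  (.leaf [0, 19, 27, 45, 91, 110]))
  (.node (.leaf [0, 22, 28, 70, 75, 119])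
  (.leaf [0, 23, 46, 58, 72, 130])))))
  (.node (.node (.node (.node (.leaf [0, 25, 74, 85, 98, 120])
  (.leaf [0, 29, 44, 82, 87, 100]))
  (.node (.leaf [0, 30, 35, 39, 47, 134])
  (.leaf [0, 31, 56, 62, 66, 132])))
  (.node (.node (.leaf [0, 32, 37, 101, 109, 126])
  (.leaf [0, 34, 88, 89, 115, 131]))
  (.node (.leaf [0, 38, 52, 80, 99, 125])
  (.leaf [0, 43, 59, 68, 92, 96]))))
  (.node (.node (.node (.leaf [0, 54, 55, 64, 86, 133])
  (.leaf [0, 57, 71, 81, 83, 107]))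
  (.node (.leaf [0, 61, 63, 73, 105, 127])
  (.leaf [1, 2, 53, 90, 101, 115])))
  (.node (.node (.leaf [1, 3, 10, 89, 92, 125])
  (.leaf [1, 4, 84, 85, 111, 131]))
  (.node (.leaf [1, 5, 27, 49, 106, 133])
  (.leaf [1, 6, 41, 54, 58, 109]))))))
  (.node (.node (.node (.node (.node (.leaf [1, 7, 13, 28, 83, 86])
  (.leaf [1, 8, 11, 71, 95, 123]))
  (.node (.leaf [1, 9, 57, 70, 79, 113])
  (.leaf [1, 12, 39, 96, 97, 129])))
  (.node (.node (.leaf [1, 14, 38, 64, 114, 127])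
  (.leaf [1, 15, 29, 62, 81, 91]))
  (.node (.leaf [1, 16, 67, 72, 74, 78])
  (.leaf [1, 17, 35, 40, 82, 117]))))
  (.node (.node (.node (.leaf [1, 18, 46, 56, 94, 134])
  (.leaf [1, 19, 25, 68, 73, 107]))
  (.node (.leaf [1, 20, 33, 37, 50, 51])
  (.leaf [1, 21, 45, 99, 118, 126])))
  (.node (.node (.leaf [1, 22, 32, 34, 36, 122])
  (.leaf [1, 23, 26, 30, 59, 104]))
  (.node (.leaf [1, 24, 31, 87, 105, 130])
  (.leaf [1, 42, 52, 77, 88, 93])))))
  (.node (.node (.node (.node (.leaf [1, 43, 98, 112, 119, 132])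
  (.leaf [1, 44, 63, 75, 102, 128]))
  (.node (.leaf [1, 47, 80, 100, 110, 120])
  (.leaf [1, 55, 61, 66, 76, 135])))
  (.node (.node (.leaf [1, 60, 65, 103, 116, 121])
  (.leaf [2, 3, 93, 96, 117, 126]))
  (.node (.leaf [2, 4, 64, 70, 78, 125])
  (.leaf [2, 5, 11, 23, 44, 120]))))
  (.node (.node (.node (.leaf [2, 6, 27, 28, 100, 132])
  (.leaf [2, 7, 10, 71, 80, 85]))
  (.node (.leaf [2, 8, 14, 17, 56, 59])
  (.leaf [2, 9, 47, 50, 54, 73])))
  (.node (.node (.leaf [2, 12, 82, 91, 112, 124])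
  (.leaf [2, 15, 45, 84, 104, 121]))
  (.node (.leaf [2, 16, 30, 63, 79, 92])
  (.leaf [2, 18, 36, 41, 65, 113])))))))

def i136_1 : BT :=
  (.node (.node (.node (.node (.node (.node (.leaf [2, 19, 42, 89, 103, 127])
  (.leaf [2, 20, 26, 72, 75, 98]))
  (.node (.leaf [2, 21, 29, 32, 43, 111])
  (.leaf [2, 22, 46, 61, 83, 129])))
  (.node (.node (.leaf [2, 24, 39, 68, 81, 106])
  (.leaf [2, 25, 52, 60, 108, 133]))
  (.node (.leaf [2, 31, 35, 49, 94, 123])
  (.leaf [2, 33, 109, 116, 119, 122]))))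
  (.node (.node (.node (.leaf [2, 34, 37, 110, 114, 130])
  (.leaf [2, 38, 51, 74, 76, 107]))
  (.node (.leaf [2, 40, 48, 86, 97, 134])
  (.leaf [2, 55, 58, 62, 118, 128])))
  (.node (.node (.leaf [2, 57, 87, 95, 99, 131])
  (.leaf [2, 66, 69, 88, 102, 105]))
  (.node (.leaf [3, 4, 29, 65, 73, 129])
  (.leaf [3, 5, 83, 113, 114, 119])))))
  (.node (.node (.node (.node (.leaf [3, 7, 21, 67, 112, 121])
  (.leaf [3, 8, 28, 30, 64, 81]))
  (.node (.leaf [3, 9, 36, 104, 110, 132])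
  (.leaf [3, 11, 22, 50, 79, 131])))
  (.node (.node (.leaf [3, 12, 45, 56, 90, 128])
  (.leaf [3, 13, 14, 63, 69, 84]))
  (.node (.leaf [3, 15, 27, 52, 109, 111])
  (.leaf [3, 16, 37, 47, 58, 97]))))
  (.node (.node (.node (.leaf [3, 17, 23, 54, 71, 124])
  (.leaf [3, 18, 39, 85, 105, 133]))
  (.node (.leaf [3, 19, 41, 77, 99, 108])
  (.leaf [3, 20, 76, 103, 115, 120])))
  (.node (.node (.leaf [3, 24, 26, 34, 61, 101])
  (.leaf [3, 25, 66, 78, 82, 130]))
  (.node (.leaf [3, 31, 60, 70, 98, 106])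
  (.leaf [3, 32, 49, 80, 102, 107]))))))
  (.node (.node (.node (.node (.node (.leaf [3, 35, 46, 75, 86, 135])
  (.leaf [3, 38, 42, 43, 62, 123]))
  (.node (.leaf [3, 40, 51, 59, 116, 127])
  (.leaf [3, 44, 48, 55, 74, 95])))
  (.node (.node (.leaf [3, 57, 72, 88, 100, 134])
  (.leaf [3, 68, 87, 91, 118, 122]))
  (.node (.leaf [4, 5, 9, 77, 107, 121])
  (.leaf [4, 6, 7, 17, 52, 55]))))
  (.node (.node (.node (.leaf [4, 8, 22, 53, 108, 120])
  (.leaf [4, 10, 45, 81, 109, 133]))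
  (.node (.leaf [4, 11, 30, 72, 97, 126])
  (.leaf [4, 12, 51, 80, 119, 134])))
  (.node (.node (.leaf [4, 13, 34, 47, 68, 116])
  (.leaf [4, 14, 35, 48, 89, 118]))
  (.node (.leaf [4, 15, 38, 96, 101, 105])
  (.leaf [4, 16, 21, 28, 40, 69])))))
  (.node (.node (.node (.node (.leaf [4, 18, 24, 66, 91, 123])
  (.leaf [4, 19, 36, 56, 87, 135]))
  (.node (.leaf [4, 20, 32, 83, 88, 94])
  (.leaf [4, 23, 41, 74, 106, 128])))
  (.node (.node (.leaf [4, 25, 27, 44, 71, 114])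
  (.leaf [4, 26, 67, 113, 115, 130]))
  (.node (.leaf [4, 31, 54, 76, 95, 102])
  (.leaf [4, 33, 75, 100, 103, 104]))))
  (.node (.node (.node (.leaf [4, 37, 86, 93, 99, 132])
  (.leaf [4, 39, 59, 62, 79, 82]))
  (.node (.leaf [4, 43, 58, 60, 63, 124])
  (.leaf [4, 46, 50, 57, 117, 127])))
  (.node (.node (.leaf [4, 61, 92, 98, 110, 122])
  (.leaf [5, 6, 16, 22, 45, 66]))
  (.node (.leaf [5, 7, 31, 34, 78, 127])
  (.leaf [5, 8, 58, 65, 80, 105])))))))

def i136_2 : BT :=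
  (.node (.node (.node (.node (.node (.node (.leaf [5, 10, 26, 82, 111, 135])
  (.leaf [5, 12, 18, 89, 98, 117]))
  (.node (.leaf [5, 13, 50, 52, 115, 134])
  (.leaf [5, 14, 28, 87, 88, 123])))
  (.node (.node (.leaf [5, 15, 21, 54, 103, 110])
  (.leaf [5, 17, 24, 29, 46, 74]))
  (.node (.leaf [5, 19, 76, 81, 84, 97])
  (.leaf [5, 20, 43, 64, 73, 128]))))
  (.node (.node (.node (.leaf [5, 25, 33, 57, 101, 125])
  (.leaf [5, 30, 48, 93, 100, 102]))
  (.node (.leaf [5, 32, 55, 67, 96, 108])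
  (.leaf [5, 35, 62, 68, 69, 99])))
  (.node (.node (.leaf [5, 36, 38, 40, 53, 72])
  (.leaf [5, 37, 70, 112, 118, 129]))
  (.node (.leaf [5, 39, 42, 75, 109, 130])
  (.leaf [5, 41, 71, 90, 116, 132])))))
  (.node (.node (.node (.node (.leaf [5, 47, 60, 91, 92, 131])
  (.leaf [5, 56, 61, 79, 86, 124]))
  (.node (.leaf [5, 59, 63, 85, 94, 126])
  (.leaf [6, 8, 114, 115, 116, 128])))
  (.node (.node (.leaf [6, 9, 14, 21, 51, 131])
  (.leaf [6, 10, 32, 75, 97, 120]))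
  (.node (.leaf [6, 11, 37, 82, 104, 105])
  (.leaf [6, 12, 24, 42, 73, 121]))))
  (.node (.node (.node (.leaf [6, 13, 56, 57, 80, 123])
  (.leaf [6, 15, 44, 70, 92, 134]))
  (.node (.leaf [6, 18, 30, 34, 87, 90])
  (.leaf [6, 19, 43, 69, 93, 130])))
  (.node (.node (.leaf [6, 20, 48, 77, 79, 96])
  (.leaf [6, 23, 50, 88, 91, 133]))
  (.node (.leaf [6, 25, 64, 65, 99, 117])
  (.leaf [6, 26, 47, 76, 85, 125]))))))
  (.node (.node (.node (.node (.node (.leaf [6, 29, 39, 49, 84, 103])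
  (.leaf [6, 31, 74, 81, 112, 122]))
  (.node (.leaf [6, 35, 36, 63, 83, 98])
  (.leaf [6, 38, 61, 71, 108, 126])))
  (.node (.node (.leaf [6, 40, 68, 78, 113, 135])
  (.leaf [6, 46, 67, 101, 102, 119]))
  (.node (.leaf [6, 59, 110, 111, 118, 124])
  (.leaf [6, 60, 62, 72, 107, 127]))))
  (.node (.node (.node (.leaf [6, 86, 89, 95, 106, 129])
  (.leaf [7, 8, 26, 74, 87, 129]))
  (.node (.leaf [7, 9, 53, 68, 97, 130])
  (.leaf [7, 11, 73, 88, 99, 109])))
  (.node (.node (.leaf [7, 12, 35, 66, 110, 131])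
  (.leaf [7, 15, 40, 49, 57, 122]))
  (.node (.leaf [7, 16, 33, 59, 90, 123])
  (.leaf [7, 18, 47, 101, 107, 128])))))
  (.node (.node (.node (.node (.leaf [7, 19, 20, 62, 95, 134])
  (.leaf [7, 22, 56, 77, 91, 100]))
  (.node (.leaf [7, 23, 42, 81, 108, 132])
  (.leaf [7, 24, 44, 54, 84, 125])))
  (.node (.node (.leaf [7, 25, 46, 51, 113, 126])
  (.leaf [7, 27, 29, 89, 96, 104]))
  (.node (.leaf [7, 30, 105, 118, 119, 120])
  (.leaf [7, 32, 63, 64, 76, 82]))))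
  (.node (.node (.node (.leaf [7, 37, 69, 92, 106, 116])
  (.leaf [7, 38, 58, 79, 103, 117]))
  (.node (.leaf [7, 39, 43, 45, 48, 114])
  (.leaf [7, 41, 98, 102, 115, 135])))
  (.node (.node (.leaf [7, 61, 75, 93, 111, 133])
  (.leaf [7, 65, 70, 72, 94, 124]))
  (.node (.leaf [8, 9, 25, 88, 103, 135])
  (.leaf [8, 10, 54, 96, 98, 130])))))))

def i136_3 : BT :=
  (.node (.node (.node (.node (.node (.node (.leaf [8, 12, 69, 72, 83, 111])
  (.leaf [8, 13, 19, 29, 40, 132]))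
  (.node (.leaf [8, 15, 47, 75, 99, 127])
  (.leaf [8, 16, 41, 85, 100, 122])))
  (.node (.node (.leaf [8, 20, 63, 107, 112, 131])
  (.leaf [8, 23, 27, 35, 38, 70]))
  (.node (.leaf [8, 24, 43, 79, 94, 133])
  (.leaf [8, 31, 44, 51, 109, 118]))))
  (.node (.node (.node (.leaf [8, 32, 57, 84, 92, 119])
  (.leaf [8, 33, 62, 77, 89, 113]))
  (.node (.leaf [8, 34, 42, 48, 66, 125])
  (.leaf [8, 36, 45, 67, 117, 134])))
  (.node (.node (.leaf [8, 37, 39, 52, 61, 121])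
  (.leaf [8, 46, 49, 55, 60, 93]))
  (.node (.leaf [8, 50, 76, 101, 106, 124])
  (.leaf [8, 68, 82, 90, 110, 126])))))
  (.node (.node (.node (.node (.leaf [8, 73, 78, 86, 91, 104])
  (.leaf [9, 10, 29, 59, 61, 112]))
  (.node (.leaf [9, 11, 19, 58, 106, 122])
  (.leaf [9, 13, 15, 24, 60, 85])))
  (.node (.node (.leaf [9, 16, 27, 43, 76, 87])
  (.leaf [9, 17, 42, 83, 92, 120]))
  (.node (.leaf [9, 18, 33, 35, 45, 124])
  (.leaf [9, 20, 39, 67, 100, 123]))))
  (.node (.node (.node (.leaf [9, 22, 44, 69, 80, 126])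
  (.leaf [9, 23, 55, 82, 102, 127]))
  (.node (.leaf [9, 26, 32, 40, 52, 89])
  (.leaf [9, 28, 93, 95, 115, 118])))
  (.node (.node (.leaf [9, 30, 38, 86, 98, 109])
  (.leaf [9, 31, 64, 111, 116, 134]))
  (.node (.leaf [9, 34, 41, 75, 81, 129])
  (.leaf [9, 37, 46, 62, 90, 133]))))))
  (.node (.node (.node (.node (.node (.leaf [9, 48, 49, 99, 119, 128])
  (.leaf [9, 56, 71, 84, 105, 117]))
  (.node (.leaf [9, 63, 72, 91, 96, 125])
  (.leaf [9, 66, 74, 94, 101, 108])))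
  (.node (.node (.leaf [10, 11, 31, 55, 115, 117])
  (.leaf [10, 12, 20, 27, 105, 122]))
  (.node (.leaf [10, 13, 30, 78, 106, 108])
  (.leaf [10, 14, 16, 34, 44, 86]))))
  (.node (.node (.node (.leaf [10, 15, 51, 66, 72, 73])
  (.leaf [10, 17, 18, 43, 70, 121]))
  (.node (.leaf [10, 19, 79, 88, 116, 126])
  (.leaf [10, 21, 33, 41, 64, 68])))
  (.node (.node (.leaf [10, 22, 74, 102, 118, 134])
  (.leaf [10, 23, 40, 62, 114, 131]))
  (.node (.leaf [10, 25, 39, 56, 58, 69])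
  (.leaf [10, 28, 60, 77, 101, 110])))))
  (.node (.node (.node (.node (.leaf [10, 35, 42, 104, 119, 129])
  (.leaf [10, 36, 46, 76, 99, 123]))
  (.node (.leaf [10, 37, 48, 57, 65, 91])
  (.leaf [10, 38, 50, 63, 87, 132])))
  (.node (.node (.leaf [10, 47, 67, 90, 94, 95])
  (.leaf [10, 49, 52, 83, 100, 127]))
  (.node (.leaf [10, 53, 84, 93, 107, 124])
  (.leaf [11, 12, 17, 63, 68, 103]))))
  (.node (.node (.node (.leaf [11, 13, 18, 32, 42, 51])
  (.leaf [11, 14, 66, 70, 93, 128]))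
  (.node (.leaf [11, 15, 43, 56, 107, 129])
  (.leaf [11, 16, 61, 89, 94, 116])))
  (.node (.node (.leaf [11, 21, 36, 48, 101, 133])
  (.leaf [11, 24, 45, 53, 75, 80]))
  (.node (.leaf [11, 25, 34, 35, 100, 112])
  (.leaf [11, 26, 62, 65, 83, 102])))))))

def i136_4 : BT :=
  (.node (.node (.node (.node (.node (.node (.leaf [11, 27, 60, 81, 119, 135])
  (.leaf [11, 28, 41, 47, 114, 121]))
  (.node (.leaf [11, 29, 52, 90, 98, 124])
  (.leaf [11, 33, 67, 76, 91, 132])))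
  (.node (.node (.leaf [11, 38, 49, 78, 85, 92])
  (.leaf [11, 39, 46, 108, 111, 125]))
  (.node (.leaf [11, 54, 69, 87, 113, 134])
  (.leaf [11, 57, 59, 64, 77, 130]))))
  (.node (.node (.node (.leaf [11, 74, 86, 96, 110, 127])
  (.leaf [12, 13, 23, 64, 95, 101]))
  (.node (.leaf [12, 14, 33, 43, 74, 99])
  (.leaf [12, 15, 55, 59, 88, 120])))
  (.node (.node (.leaf [12, 16, 57, 60, 75, 126])
  (.leaf [12, 19, 34, 46, 54, 104]))
  (.node (.leaf [12, 21, 25, 30, 50, 123])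
  (.leaf [12, 22, 47, 49, 109, 132])))))
  (.node (.node (.node (.node (.leaf [12, 26, 36, 84, 108, 116])
  (.leaf [12, 28, 44, 52, 79, 135]))
  (.node (.leaf [12, 29, 67, 71, 118, 127])
  (.leaf [12, 31, 41, 48, 61, 107])))
  (.node (.node (.leaf [12, 32, 62, 85, 106, 130])
  (.leaf [12, 37, 38, 81, 102, 113]))
  (.node (.leaf [12, 40, 87, 93, 94, 125])
  (.leaf [12, 53, 76, 77, 92, 133]))))
  (.node (.node (.node (.leaf [12, 58, 70, 86, 100, 115])
  (.leaf [13, 16, 26, 99, 107, 133]))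
  (.node (.leaf [13, 17, 73, 87, 119, 126])
  (.leaf [13, 20, 36, 59, 74, 125])))
  (.node (.node (.leaf [13, 21, 38, 82, 93, 120])
  (.leaf [13, 22, 71, 111, 112, 130]))
  (.node (.leaf [13, 25, 45, 70, 97, 122])
  (.leaf [13, 27, 41, 46, 103, 124]))))))
  (.node (.node (.node (.node (.node (.leaf [13, 31, 37, 72, 89, 128])
  (.leaf [13, 33, 44, 81, 98, 131]))
  (.node (.leaf [13, 35, 43, 55, 90, 113])
  (.leaf [13, 39, 54, 65, 92, 127])))
  (.node (.node (.leaf [13, 48, 76, 105, 110, 121])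
  (.leaf [13, 49, 75, 88, 114, 117]))
  (.node (.leaf [13, 53, 66, 79, 104, 118])
  (.leaf [13, 58, 91, 94, 102, 129]))))
  (.node (.node (.node (.leaf [13, 61, 62, 96, 100, 109])
  (.leaf [14, 15, 23, 97, 98, 116]))
  (.node (.leaf [14, 18, 52, 72, 110, 129])
  (.leaf [14, 19, 55, 65, 100, 111])))
  (.node (.node (.leaf [14, 20, 30, 41, 82, 133])
  (.leaf [14, 22, 29, 58, 113, 121]))
  (.node (.leaf [14, 24, 47, 62, 112, 117])
  (.leaf [14, 25, 42, 76, 79, 134])))))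
  (.node (.node (.node (.node (.leaf [14, 26, 46, 71, 96, 122])
  (.leaf [14, 27, 39, 78, 94, 115]))
  (.node (.leaf [14, 31, 32, 53, 73, 135])
  (.leaf [14, 37, 45, 49, 77, 120])))
  (.node (.node (.leaf [14, 40, 91, 108, 119, 130])
  (.leaf [14, 54, 61, 67, 80, 81]))
  (.node (.leaf [14, 57, 85, 102, 104, 124])
  (.leaf [14, 68, 75, 83, 101, 132]))))
  (.node (.node (.node (.leaf [14, 90, 106, 107, 109, 125])
  (.leaf [14, 92, 95, 103, 105, 126]))
  (.node (.leaf [15, 16, 19, 82, 83, 128])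
  (.leaf [15, 17, 48, 80, 90, 130])))
  (.node (.node (.leaf [15, 18, 20, 25, 61, 132])
  (.leaf [15, 22, 64, 67, 87, 89]))
  (.node (.leaf [15, 28, 32, 74, 113, 124])
  (.leaf [15, 30, 37, 71, 94, 135])))))))

def i136_5 : BT :=
  (.node (.node (.node (.node (.node (.node (.leaf [15, 31, 36, 39, 93, 131])
  (.leaf [15, 33, 42, 46, 106, 115]))
  (.node (.leaf [15, 34, 63, 65, 108, 118])
  (.leaf [15, 35, 58, 76, 114, 126])))
  (.node (.node (.leaf [15, 50, 53, 78, 95, 112])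
  (.leaf [15, 68, 77, 86, 102, 125]))
  (.node (.leaf [15, 69, 100, 117, 119, 133])
  (.leaf [16, 17, 20, 101, 113, 127]))))
  (.node (.node (.node (.leaf [16, 18, 49, 50, 104, 130])
  (.leaf [16, 23, 24, 25, 96, 118]))
  (.node (.leaf [16, 29, 93, 109, 114, 134])
  (.leaf [16, 31, 68, 80, 88, 124])))
  (.node (.node (.leaf [16, 32, 56, 98, 103, 125])
  (.leaf [16, 35, 52, 65, 84, 132]))
  (.node (.leaf [16, 36, 55, 77, 105, 129])
  (.leaf [16, 38, 39, 91, 95, 135])))))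
  (.node (.node (.node (.node (.leaf [16, 42, 70, 71, 102, 131])
  (.leaf [16, 46, 48, 73, 81, 120]))
  (.node (.leaf [16, 51, 54, 108, 112, 115])
  (.leaf [16, 53, 62, 64, 110, 119])))
  (.node (.node (.leaf [17, 19, 47, 98, 118, 133])
  (.leaf [17, 21, 78, 84, 100, 128]))
  (.node (.leaf [17, 22, 81, 105, 114, 125])
  (.leaf [17, 25, 36, 89, 102, 109]))))
  (.node (.node (.node (.leaf [17, 26, 27, 37, 53, 134])
  (.leaf [17, 28, 94, 99, 106, 112]))
  (.node (.leaf [17, 30, 57, 58, 96, 132])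
  (.leaf [17, 31, 75, 79, 85, 91])))
  (.node (.node (.leaf [17, 32, 69, 110, 115, 123])
  (.leaf [17, 33, 95, 97, 107, 111]))
  (.node (.leaf [17, 34, 49, 51, 62, 135])
  (.leaf [17, 38, 41, 67, 88, 104]))))))
  (.node (.node (.node (.node (.node (.leaf [17, 39, 60, 64, 66, 122])
  (.leaf [17, 44, 50, 61, 65, 77]))
  (.node (.leaf [17, 45, 72, 86, 108, 131])
  (.leaf [18, 19, 80, 86, 92, 114])))
  (.node (.node (.leaf [18, 22, 48, 84, 115, 127])
  (.leaf [18, 23, 29, 31, 77, 126]))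
  (.node (.leaf [18, 26, 64, 69, 103, 109])
  (.leaf [18, 27, 59, 83, 95, 108]))))
  (.node (.node (.node (.leaf [18, 28, 38, 54, 68, 131])
  (.leaf [18, 37, 55, 79, 119, 125]))
  (.node (.leaf [18, 40, 75, 76, 96, 112])
  (.leaf [18, 44, 62, 67, 93, 122])))
  (.node (.node (.leaf [18, 53, 58, 81, 88, 111])
  (.leaf [18, 57, 73, 82, 106, 118]))
  (.node (.leaf [18, 60, 71, 78, 99, 120])
  (.leaf [18, 63, 74, 100, 116, 135])))))
  (.node (.node (.node (.node (.leaf [19, 21, 39, 53, 57, 74])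
  (.leaf [19, 22, 23, 37, 63, 123]))
  (.node (.leaf [19, 24, 67, 70, 109, 120])
  (.leaf [19, 26, 38, 48, 60, 112])))
  (.node (.node (.leaf [19, 28, 35, 51, 61, 125])
  (.leaf [19, 30, 49, 66, 115, 124]))
  (.node (.leaf [19, 31, 52, 59, 71, 119])
  (.leaf [19, 32, 50, 72, 90, 105]))))
  (.node (.node (.node (.leaf [19, 33, 78, 96, 102, 121])
  (.leaf [19, 44, 85, 101, 117, 129]))
  (.node (.leaf [19, 64, 75, 94, 113, 131])
  (.leaf [20, 21, 52, 91, 106, 114])))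
  (.node (.node (.leaf [20, 22, 54, 85, 90, 93])
  (.leaf [20, 23, 78, 80, 111, 129]))
  (.node (.leaf [20, 24, 38, 89, 119, 124])
  (.leaf [20, 28, 31, 45, 46, 92])))))))

def i136_6 : BT :=
  (.node (.node (.node (.node (.node (.node (.leaf [20, 29, 35, 60, 102, 130])
  (.leaf [20, 34, 53, 69, 71, 121]))
  (.node (.leaf [20, 42, 47, 65, 86, 126])
  (.leaf [20, 44, 49, 58, 68, 108])))
  (.node (.node (.leaf [20, 55, 56, 70, 99, 104])
  (.leaf [20, 57, 97, 109, 110, 135]))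
  (.node (.leaf [20, 66, 81, 87, 116, 117])
  (.leaf [21, 22, 27, 55, 92, 107]))))
  (.node (.node (.node (.leaf [21, 23, 34, 56, 85, 119])
  (.leaf [21, 24, 35, 72, 77, 122]))
  (.node (.leaf [21, 26, 44, 73, 94, 132])
  (.leaf [21, 31, 58, 83, 104, 125])))
  (.node (.node (.leaf [21, 37, 87, 98, 108, 127])
  (.leaf [21, 42, 59, 80, 117, 135]))
  (.node (.leaf [21, 46, 47, 63, 66, 89])
  (.leaf [21, 49, 71, 76, 86, 113])))))
  (.node (.node (.node (.node (.leaf [21, 60, 79, 109, 115, 129])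
  (.leaf [21, 61, 70, 88, 95, 130]))
  (.node (.leaf [21, 62, 75, 105, 116, 124])
  (.leaf [21, 65, 81, 90, 96, 134])))
  (.node (.node (.leaf [22, 24, 52, 57, 86, 116])
  (.leaf [22, 25, 38, 94, 110, 128]))
  (.node (.leaf [22, 26, 39, 51, 117, 124])
  (.leaf [22, 30, 33, 40, 60, 73]))))
  (.node (.node (.node (.leaf [22, 31, 82, 96, 99, 103])
  (.leaf [22, 35, 41, 59, 97, 101]))
  (.node (.leaf [22, 42, 68, 72, 95, 133])
  (.leaf [22, 43, 65, 104, 106, 135])))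
  (.node (.node (.leaf [22, 62, 76, 78, 88, 98])
  (.leaf [23, 28, 33, 49, 105, 134]))
  (.node (.leaf [23, 32, 39, 86, 87, 112])
  (.leaf [23, 36, 66, 75, 92, 121]))))))
  (.node (.node (.node (.node (.node (.leaf [23, 43, 47, 57, 61, 115])
  (.leaf [23, 45, 51, 83, 93, 103]))
  (.node (.leaf [23, 48, 68, 94, 109, 117])
  (.leaf [23, 52, 69, 73, 76, 122])))
  (.node (.node (.leaf [23, 53, 60, 100, 113, 125])
  (.leaf [23, 65, 67, 79, 107, 110]))
  (.node (.leaf [23, 84, 89, 90, 99, 135])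
  (.leaf [24, 27, 88, 90, 97, 127]))))
  (.node (.node (.node (.leaf [24, 28, 36, 58, 71, 82])
  (.leaf [24, 30, 32, 99, 114, 129]))
  (.node (.leaf [24, 33, 56, 93, 108, 110])
  (.leaf [24, 37, 59, 76, 100, 131])))
  (.node (.node (.leaf [24, 40, 104, 107, 115, 126])
  (.leaf [24, 41, 55, 63, 78, 134]))
  (.node (.leaf [24, 48, 50, 64, 83, 135])
  (.leaf [24, 49, 65, 69, 95, 98])))))
  (.node (.node (.node (.node (.leaf [24, 51, 92, 102, 111, 132])
  (.leaf [25, 26, 31, 86, 90, 121]))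
  (.node (.leaf [25, 28, 29, 72, 80, 116])
  (.leaf [25, 32, 41, 91, 93, 127])))
  (.node (.node (.leaf [25, 37, 43, 75, 84, 95])
  (.leaf [25, 40, 47, 55, 81, 124]))
  (.node (.leaf [25, 48, 62, 87, 92, 104])
  (.leaf [25, 49, 53, 54, 59, 129]))))
  (.node (.node (.node (.leaf [25, 63, 77, 111, 115, 119])
  (.leaf [25, 67, 83, 105, 106, 131]))
  (.node (.leaf [26, 28, 42, 55, 91, 97])
  (.leaf [26, 29, 33, 88, 92, 128])))
  (.node (.node (.leaf [26, 35, 57, 78, 93, 105])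
  (.leaf [26, 43, 77, 80, 118, 131]))
  (.node (.leaf [26, 45, 58, 95, 119, 127])
  (.leaf [26, 49, 63, 70, 81, 110])))))))

def i136_7 : BT :=
  (.node (.node (.node (.node (.node (.node (.leaf [26, 50, 56, 68, 114, 120])
  (.leaf [26, 54, 66, 100, 106, 126]))
  (.node (.leaf [27, 30, 62, 74, 80, 121])
  (.leaf [27, 31, 40, 65, 101, 120])))
  (.node (.node (.leaf [27, 32, 48, 58, 116, 131])
  (.leaf [27, 33, 63, 86, 117, 130]))
  (.node (.leaf [27, 34, 73, 79, 93, 98])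
  (.leaf [27, 36, 42, 54, 57, 128]))))
  (.node (.node (.node (.leaf [27, 47, 51, 77, 82, 123])
  (.leaf [27, 50, 69, 75, 118, 125]))
  (.node (.leaf [27, 56, 64, 102, 112, 126])
  (.leaf [27, 61, 72, 85, 99, 113])))
  (.node (.node (.leaf [27, 66, 67, 68, 84, 129])
  (.leaf [28, 34, 50, 96, 111, 128]))
  (.node (.leaf [28, 37, 78, 107, 117, 122])
  (.leaf [28, 39, 63, 90, 104, 120])))))
  (.node (.node (.node (.node (.leaf [28, 43, 66, 85, 109, 127])
  (.leaf [28, 48, 53, 67, 98, 126]))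
  (.node (.leaf [28, 56, 65, 76, 89, 130])
  (.leaf [28, 57, 62, 103, 108, 129])))
  (.node (.node (.leaf [28, 59, 73, 84, 102, 133])
  (.leaf [29, 30, 55, 69, 101, 131]))
  (.node (.leaf [29, 34, 45, 57, 76, 94])
  (.leaf [29, 36, 37, 68, 85, 115]))))
  (.node (.node (.node (.leaf [29, 38, 56, 83, 97, 133])
  (.leaf [29, 41, 95, 110, 117, 125]))
  (.node (.leaf [29, 42, 53, 63, 99, 122])
  (.leaf [29, 47, 70, 105, 108, 135])))
  (.node (.node (.leaf [29, 48, 54, 75, 78, 123])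
  (.leaf [29, 50, 66, 86, 107, 119]))
  (.node (.leaf [29, 51, 64, 79, 106, 120])
  (.leaf [30, 31, 42, 84, 110, 113]))))))
  (.node (.node (.node (.node (.node (.leaf [30, 36, 44, 103, 107, 130])
  (.leaf [30, 43, 54, 83, 89, 122]))
  (.node (.leaf [30, 45, 65, 88, 112, 125])
  (.leaf [30, 46, 77, 85, 95, 116])))
  (.node (.node (.leaf [30, 51, 52, 56, 67, 75])
  (.leaf [30, 53, 61, 91, 117, 128]))
  (.node (.leaf [30, 68, 70, 76, 111, 127])
  (.leaf [31, 33, 38, 47, 69, 129]))))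
  (.node (.node (.node (.leaf [31, 43, 50, 97, 100, 108])
  (.leaf [31, 57, 63, 67, 114, 133]))
  (.node (.leaf [32, 33, 65, 66, 71, 133])
  (.leaf [32, 35, 79, 81, 95, 128])))
  (.node (.node (.leaf [32, 38, 46, 100, 118, 121])
  (.leaf [32, 44, 45, 47, 59, 78]))
  (.node (.leaf [32, 54, 70, 77, 117, 132])
  (.leaf [32, 60, 61, 68, 104, 134])))))
  (.node (.node (.node (.node (.leaf [33, 34, 39, 55, 83, 126])
  (.leaf [33, 36, 79, 80, 112, 127]))
  (.node (.leaf [33, 48, 52, 70, 82, 85])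
  (.leaf [33, 54, 72, 114, 118, 135])))
  (.node (.node (.leaf [33, 58, 61, 84, 87, 120])
  (.leaf [34, 38, 77, 84, 106, 134]))
  (.node (.leaf [34, 40, 70, 74, 103, 133])
  (.leaf [34, 43, 72, 102, 117, 120]))))
  (.node (.node (.node (.leaf [34, 52, 58, 64, 107, 123])
  (.leaf [34, 59, 91, 105, 109, 113]))
  (.node (.leaf [34, 60, 80, 82, 95, 132])
  (.leaf [34, 67, 92, 97, 99, 124])))
  (.node (.node (.leaf [35, 37, 67, 73, 103, 111])
  (.leaf [35, 44, 53, 56, 106, 127]))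
  (.node (.leaf [35, 50, 71, 74, 92, 109])
  (.leaf [35, 54, 91, 107, 116, 120])))))))

def i136_8 : BT :=
  (.node (.node (.node (.node (.node (.node (.leaf [35, 64, 85, 88, 108, 121])
  (.leaf [35, 80, 87, 96, 115, 133]))
  (.node (.leaf [36, 43, 52, 78, 81, 126])
  (.leaf [36, 47, 88, 96, 106, 119])))
  (.node (.node (.leaf [36, 49, 61, 64, 97, 118])
  (.leaf [36, 51, 69, 70, 90, 91]))
  (.node (.leaf [36, 62, 86, 94, 111, 120])
  (.leaf [36, 73, 95, 100, 114, 124]))))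
  (.node (.node (.node (.leaf [37, 40, 41, 66, 80, 83])
  (.leaf [37, 42, 44, 64, 96, 124]))
  (.node (.leaf [37, 54, 56, 60, 74, 88])
  (.leaf [38, 44, 57, 66, 90, 111])))
  (.node (.node (.leaf [38, 45, 55, 73, 116, 130])
  (.leaf [38, 59, 65, 75, 115, 122]))
  (.node (.leaf [39, 40, 71, 77, 98, 128])
  (.leaf [39, 41, 44, 72, 76, 119])))))
  (.node (.node (.node (.node (.leaf [39, 50, 99, 102, 110, 116])
  (.leaf [39, 70, 73, 80, 89, 101]))
  (.node (.leaf [39, 88, 107, 113, 118, 132])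
  (.leaf [40, 42, 50, 58, 67, 85])))
  (.node (.node (.leaf [40, 43, 44, 46, 88, 110])
  (.leaf [40, 45, 61, 102, 106, 123]))
  (.node (.leaf [40, 54, 79, 99, 105, 111])
  (.leaf [40, 56, 63, 95, 109, 121]))))
  (.node (.node (.node (.leaf [40, 64, 90, 92, 100, 129])
  (.leaf [41, 42, 45, 60, 87, 111]))
  (.node (.leaf [41, 43, 51, 53, 86, 105])
  (.leaf [41, 49, 56, 73, 96, 131])))
  (.node (.node (.leaf [41, 50, 62, 70, 84, 126])
  (.leaf [41, 52, 92, 94, 118, 130]))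
  (.node (.leaf [41, 57, 69, 89, 112, 120])
  (.leaf [42, 56, 78, 101, 116, 118]))))))
  (.node (.node (.node (.node (.node (.leaf [42, 61, 69, 74, 82, 114])
  (.leaf [42, 94, 98, 100, 105, 107]))
  (.node (.leaf [43, 49, 67, 82, 116, 125])
  (.leaf [43, 71, 91, 101, 103, 134])))
  (.node (.node (.leaf [44, 60, 89, 97, 105, 123])
  (.leaf [44, 83, 91, 99, 115, 121]))
  (.node (.leaf [44, 104, 112, 113, 116, 133])
  (.leaf [45, 50, 82, 98, 113, 129]))))
  (.node (.node (.node (.leaf [45, 52, 54, 62, 63, 101])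
  (.leaf [45, 64, 74, 105, 115, 132]))
  (.node (.leaf [45, 68, 71, 79, 89, 100])
  (.leaf [45, 69, 85, 96, 107, 135])))
  (.node (.node (.leaf [46, 52, 68, 105, 112, 128])
  (.leaf [46, 53, 65, 82, 109, 131]))
  (.node (.leaf [46, 59, 70, 87, 107, 114])
  (.leaf [46, 64, 80, 84, 91, 98])))))
  (.node (.node (.node (.node (.leaf [46, 69, 78, 79, 97, 132])
  (.leaf [47, 48, 56, 111, 113, 122]))
  (.node (.leaf [47, 52, 53, 87, 102, 103])
  (.leaf [47, 64, 71, 72, 93, 104])))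
  (.node (.node (.leaf [47, 74, 79, 83, 84, 130])
  (.leaf [48, 51, 63, 71, 88, 129]))
  (.node (.leaf [48, 59, 72, 103, 106, 132])
  (.leaf [49, 72, 79, 87, 101, 121]))))
  (.node (.node (.node (.leaf [49, 74, 89, 91, 111, 126])
  (.leaf [50, 55, 80, 94, 103, 122]))
  (.node (.leaf [50, 59, 81, 89, 93, 121])
  (.leaf [51, 55, 57, 68, 98, 121])))
  (.node (.node (.leaf [51, 58, 78, 89, 110, 133])
  (.leaf [51, 60, 84, 94, 96, 114]))
  (.node (.leaf [51, 65, 85, 87, 97, 128])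
  (.leaf [51, 81, 99, 100, 101, 130])))))))

def i136_9 : BT :=
  (.node (.node (.node (.node (.leaf [52, 66, 95, 96, 113, 120])
  (.node (.leaf [52, 74, 97, 104, 117, 131])
  (.leaf [53, 55, 85, 89, 114, 132])))
  (.node (.node (.leaf [53, 70, 83, 96, 116, 123])
  (.leaf [54, 82, 94, 97, 119, 121]))
  (.node (.leaf [55, 71, 75, 87, 106, 110])
  (.leaf [55, 72, 84, 109, 112, 123]))))
  (.node (.node (.leaf [56, 72, 81, 82, 92, 115])
  (.node (.leaf [58, 59, 66, 98, 99, 134])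
  (.leaf [58, 73, 74, 75, 77, 90])))
  (.node (.node (.leaf [58, 92, 93, 101, 112, 135])
  (.leaf [59, 60, 67, 69, 86, 128]))
  (.node (.leaf [60, 76, 83, 90, 117, 118])
  (.leaf [61, 78, 90, 103, 119, 131])))))
  (.node (.node (.node (.leaf [62, 71, 73, 97, 115, 125])
  (.node (.leaf [63, 80, 93, 97, 106, 113])
  (.leaf [65, 68, 74, 93, 119, 123])))
  (.node (.node (.leaf [66, 77, 97, 103, 112, 114])
  (.leaf [69, 77, 81, 94, 104, 127]))
  (.node (.leaf [73, 83, 85, 110, 112, 134])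
  (.leaf [73, 92, 108, 113, 117, 123]))))
  (.node (.node (.leaf [75, 82, 89, 107, 108, 134])
  (.node (.leaf [76, 80, 104, 108, 109, 128])
  (.leaf [77, 78, 83, 87, 109, 124])))
  (.node (.node (.leaf [79, 90, 102, 108, 114, 122])
  (.leaf [81, 85, 86, 103, 118, 123]))
  (.node (.leaf [82, 84, 86, 88, 101, 122])
  (.leaf [98, 101, 104, 111, 114, 123]))))))

def i136 : BT := (.node (.node (.node i136_0 i136_1) (.node i136_2 (.node i136_3 i136_4))) (.node (.node i136_5 i136_6) (.node i136_7 (.node i136_8 i136_9))))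

theorem cov_i136 : ∃ 𝓑 : Set (Finset (Fin 136)), Cov (Fin 136) 6
    (fun x y => ¬ (x.val ∈ List.range' 120 16 ∧ y.val ∈ List.range' 120 16)) 𝓑 :=
  cov_of_tree 6 136 16 i136 (List.range' 120 16) (by decide +kernel) (by decide +kernel)
    (by decide +kernel) (by decide +kernel) (by decide +kernel) (by decide +kernel)

end Pool.Agent.TH848.Rec
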