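import Pool.Agent.TH848.Rec.Fill

/-!
Transversal designs with six groups of size 11 and 12, and their product with a hole.
-/

set_option autoImplicit false
set_option maxRecDepth 100000

namespace Pool.Agent.TH848.Rec

open Pool.Agent.H816R2.KM2 Pool.Agent.TH848.KM

/-- the array with entries `g q i mod n`, `q < n²` -/
def tdf (n : ℕ) [NeZero n] (g : ℕ → ℕ → ℕ) (p : Fin n × Fin n) (i : Fin 6) : Fin n :=
  Fin.ofNat n (g (p.1.val * n + p.2.val) i.val)

theorem tdf_ok (n : ℕ) [NeZero n] (g : ℕ → ℕ → ℕ)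
    (h : ∀ i j : Fin 6, i ≠ j → addBits ((List.range (n * n)).map fun q =>
      (g q i.val % n) * n + g q j.val % n) 0 = 2 ^ (n * n) - 1) :
    ∀ i j : Fin 6, i ≠ j → ∀ a b : Fin n, ∃ p, tdf n g p i = a ∧ tdf n g p j = b := by
  intro i j hij a b
  have hn : 0 < n := Nat.pos_of_ne_zero (NeZero.ne n)
  have hlt : a.val * n + b.val < n * n := by
    calc a.val * n + b.val < a.val * n + n := by have := b.2; omega
      _ = (a.val + 1) * n := by ring
      _ ≤ n * n := Nat.mul_le_mul_right _ a.2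
  have h1 : Nat.testBit (addBits ((List.range (n * n)).map fun q =>
      (g q i.val % n) * n + g q j.val % n) 0) (a.val * n + b.val) = true := by
    rw [h i j hij, Nat.testBit_two_pow_sub_one, decide_eq_true_eq]
    exact hlt
  rw [addBits_spec] at h1
  rcases h1 with h1 | h1
  · simp at h1
  obtain ⟨q, hq, he⟩ := List.mem_map.1 h1
  rw [List.mem_range] at hq
  have h2 : g q i.val % n < n := Nat.mod_lt _ hn
  have h3 : g q j.val % n < n := Nat.mod_lt _ hn
  have e1 : g q i.val % n = a.val := by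
    have h5 : (g q i.val % n * n + g q j.val % n) / n = (a.val * n + b.val) / n := by rw [he]
    rw [Nat.add_comm (g q i.val % n * n), Nat.add_mul_div_right _ _ hn, Nat.div_eq_of_lt h3,
      Nat.add_comm (a.val * n), Nat.add_mul_div_right _ _ hn, Nat.div_eq_of_lt b.2] at h5
    omega
  have e2 : g q j.val % n = b.val := by
    rw [e1] at he
    omega
  have h4 : q / n < n := Nat.div_lt_of_lt_mul hq
  refine ⟨(⟨q / n, h4⟩, ⟨q % n, Nat.mod_lt _ hn⟩), ?_, ?_⟩
  · apply Fin.ext
    show g (q / n * n + q % n) i.val % n = a.val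
    rw [Nat.div_add_mod', e1]
  · apply Fin.ext
    show g (q / n * n + q % n) j.val % n = b.val
    rw [Nat.div_add_mod', e2]

/-- addition of `ℤ₂ × ℤ₆`, the pair `(a, b)` being coded as `6 a + b` -/
def add12 (x g : ℕ) : ℕ := ((x / 6 + g / 6) % 2) * 6 + (x % 6 + g % 6) % 6

/-- the rows of a difference matrix over `ℤ₂ × ℤ₆` -/
def dm12 (i x : ℕ) : ℕ :=
  match i with
  | 0 => 0
  | 1 => x
  | 2 => [0, 7, 1, 11, 5, 10, 4, 9, 3, 6, 8, 2].getD x 0
  | 3 => [0, 2, 6, 5, 9, 8, 1, 11, 4, 3, 7, 10].getD x 0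
  | _ => [0, 9, 8, 4, 7, 2, 10, 6, 1, 11, 5, 3].getD x 0

/-- a transversal design with six groups of size 12 -/
def g12 (q i : ℕ) : ℕ := if i = 5 then q / 12 else add12 (dm12 i (q / 12)) (q % 12)

/-- a transversal design with six groups of size 11 -/
def g11 (q i : ℕ) : ℕ := if i = 5 then q % 11 else q / 11 + i * (q % 11)

theorem g12_ok : ∀ i j : Fin 6, i ≠ j → addBits ((List.range (12 * 12)).map fun q =>
    (g12 q i.val % 12) * 12 + g12 q j.val % 12) 0 = 2 ^ (12 * 12) - 1 := by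
  decide +kernel

theorem g11_ok : ∀ i j : Fin 6, i ≠ j → addBits ((List.range (11 * 11)).map fun q =>
    (g11 q i.val % 11) * 11 + g11 q j.val % 11) 0 = 2 ^ (11 * 11) - 1 := by
  decide +kernel

/-- `TD(6,132) - TD(6,12)` -/
theorem itd132 : ITD 6 (Fin 11 × Fin 12) (fun x => x.1 = 0)
    {t | (fun i => (t i).1) ∈ Set.range (tdf 11 g11) ∧ (fun i => (t i).1) ≠ (fun _ => 0) ∧
      (fun i => (t i).2) ∈ Set.range (tdf 12 g12)} :=
  itd_prod 0 (itd_of_fun _ (tdf_ok 11 g11 g11_ok))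
    ⟨(0, 0), by funext i; fin_cases i <;> rfl⟩ (itd_of_fun _ (tdf_ok 12 g12 g12_ok))

end Pool.Agent.TH848.Rec
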