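import Pool.Agent.TH848.Rec.D76
import Pool.Agent.TH848.Rec.I136
import Pool.Agent.TH848.Rec.TD

/-!
A Steiner system `S(2,6,796)`: `796 = 6 · 132 + 4`, from `TD(6,132) - TD(6,12)`, incomplete designs
on `136` points with a hole of size `16`, and a Steiner system `S(2,6,76)`.
-/

set_option autoImplicit false

namespace Pool.Agent.TH848.Rec

open Pool.Agent.H816R2.KM2 Pool.Agent.TH848.KM

/-- A hole of size `h` in a type with `h + z` points, as a sum. -/
theorem exists_equiv_sum {X : Type} [Fintype X] (H : X → Prop) [DecidablePred H] (h z : ℕ)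
    (h1 : Fintype.card {x // H x} = h) (h2 : Fintype.card {x // ¬ H x} = z) :
    ∃ e : X ≃ Fin h ⊕ Fin z, ∀ x, (e x).isLeft = true ↔ H x := by
  refine ⟨(Equiv.sumCompl H).symm.trans
    (Equiv.sumCongr (Fintype.equivFinOfCardEq h1) (Fintype.equivFinOfCardEq h2)), ?_⟩
  intro x
  by_cases hx : H x
  · simp [Equiv.sumCompl_symm_apply_of_pos hx, hx]
  · simp [Equiv.sumCompl_symm_apply_of_neg hx, hx]

/-- An incomplete design on `Fin (z + (h + w))` whose hole is formed by the last points. -/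
theorem cov_sum {k z h w : ℕ}
    (hI : ∃ 𝓑 : Set (Finset (Fin (z + (h + w)))), Cov (Fin (z + (h + w))) k
      (fun x y => ¬ (x.val ∈ List.range' z (h + w) ∧ y.val ∈ List.range' z (h + w))) 𝓑) :
    ∃ 𝓑 : Set (Finset (Fin z ⊕ (Fin h ⊕ Fin w))), Cov (Fin z ⊕ (Fin h ⊕ Fin w)) k
      (fun x y => ¬ (x.isRight = true ∧ y.isRight = true)) 𝓑 := by
  obtain ⟨𝓑, hB⟩ := hI
  let e : Fin (z + (h + w)) ≃ Fin z ⊕ (Fin h ⊕ Fin w) :=
    finSumFinEquiv.symm.trans (Equiv.sumCongr (Equiv.refl _) finSumFinEquiv.symm)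
  have he : ∀ x, (e x).isRight = true ↔ x.val ∈ List.range' z (h + w) := by
    intro x
    rw [List.mem_range'_1]
    obtain ⟨y, rfl⟩ := (finSumFinEquiv (m := z) (n := h + w)).surjective x
    rcases y with y | y
    · have := y.2
      simp [e]
    · have := y.2
      simp [e]
  refine ⟨_, cov_congr (cov_map e.toEmbedding hB) ?_⟩
  intro a b _
  constructor
  · rintro ⟨x, y, rfl, rfl, hxy⟩
    simp only [Equiv.coe_toEmbedding]
    rw [he, he]
    exact hxy
  · intro hab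
    refine ⟨e.symm a, e.symm b, e.apply_symm_apply a, e.apply_symm_apply b, ?_⟩
    rw [← he, ← he, e.apply_symm_apply, e.apply_symm_apply]
    exact hab

/-- The filling construction with numbers: `6 (h + z) + w` points. -/
theorem fill_fin {h z w v a : ℕ} (hv : 6 * (h + z) + w = v) (ha : 6 * h + w = a)
    (hT : ∃ T : Set (Fin 6 → Fin h ⊕ Fin z), ITD 6 (Fin h ⊕ Fin z) (fun x => x.isLeft = true) T)
    (hI : ∃ 𝓑 : Set (Finset (Fin (z + (h + w)))), Cov (Fin (z + (h + w))) 6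
      (fun x y => ¬ (x.val ∈ List.range' z (h + w) ∧ y.val ∈ List.range' z (h + w))) 𝓑)
    (hF : ∃ 𝓑 : Set (Finset (Fin a)), IsS2 (Fin a) 6 𝓑) :
    ∃ 𝓑 : Set (Finset (Fin v)), IsS2 (Fin v) 6 𝓑 := by
  have e1 : Fin a ≃ (Fin 6 × Fin h) ⊕ Fin w := Fintype.equivOfCardEq (by simp [← ha])
  have e2 : (Fin 6 × (Fin h ⊕ Fin z)) ⊕ Fin w ≃ Fin v := Fintype.equivOfCardEq (by simp [← hv])
  exact transport 6 e2 (fill hT (cov_sum hI) (transport 6 e1 hF))

theorem s796 : ∃ 𝓑 : Set (Finset (Fin 796)), IsS2 (Fin 796) 6 𝓑 := by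
  refine fill_fin (h := 12) (z := 120) (w := 4) (a := 76) (by norm_num) (by norm_num) ?_
    cov_i136 s2_d76
  obtain ⟨e, he⟩ := exists_equiv_sum (X := Fin 11 × Fin 12) (fun x => x.1 = 0) 12 120
    (by decide +kernel) (by decide +kernel)
  exact ⟨_, itd_equiv e he itd132⟩

end Pool.Agent.TH848.Rec
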