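import Pool.Agent.TH848.Rec.Eight
import Pool.Agent.TH848.KM.K7v127
import Pool.Agent.TH848.KM.K7v337

/-!
Wilson's fundamental construction with constant weight, applied to a truncated transversal design
`TD(8,8)`: a Steiner system `S(2,7,2479)` from Steiner systems `S(2,7,127)` and `S(2,7,337)`.
-/

set_option autoImplicit false
set_option maxRecDepth 100000

namespace Pool.Agent.TH848.Rec

open Pool.Agent.H816R2.KM2 Pool.Agent.TH848.KM

/-- the embedding of a weighted block -/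
def wEmb {P : Type} (W : Type) (B : Finset P) : {x // x ∈ B} × W ↪ P × W :=
  ⟨fun p => (p.1.1, p.2), fun p q h => by
    obtain ⟨h1, h2⟩ := Prod.mk.inj h
    exact Prod.ext (Subtype.ext h1) h2⟩

theorem wfc {P W : Type} [DecidableEq P] [DecidableEq W] {k : ℕ} (E : P → P → Prop)
    (𝓜 : Set (Finset P))
    (h1 : ∀ B ∈ 𝓜, ∀ a ∈ B, ∀ b ∈ B, a ≠ b → E a b)
    (h2 : ∀ a b : P, a ≠ b → E a b → ∃ B ∈ 𝓜, a ∈ B ∧ b ∈ B ∧ ∀ D ∈ 𝓜, a ∈ D → b ∈ D → D = B)
    (hI : ∀ B ∈ 𝓜, ∃ 𝓑 : Set (Finset ({x // x ∈ B} × W)),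
      Cov ({x // x ∈ B} × W) k (fun x y => x.1 ≠ y.1) 𝓑) :
    ∃ 𝓑 : Set (Finset (P × W)), Cov (P × W) k (fun x y => x.1 ≠ y.1 ∧ E x.1 y.1) 𝓑 := by
  classical
  choose D hD using hI
  refine ⟨{C | ∃ B, ∃ hB : B ∈ 𝓜, ∃ K ∈ D B hB, C = K.map (wEmb W B)}, ?_, ?_, ?_⟩
  · rintro C ⟨B, hB, K, hK, rfl⟩
    rw [Finset.card_map]
    exact (hD B hB).1 K hK
  · rintro C ⟨B, hB, K, hK, rfl⟩ a ha b hb hab
    obtain ⟨⟨x, w⟩, hx, rfl⟩ := Finset.mem_map.1 ha
    obtain ⟨⟨y, w'⟩, hy, rfl⟩ := Finset.mem_map.1 hb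
    have h3 := (hD B hB).2.1 K hK _ hx _ hy (fun h => hab (by rw [h]))
    have h4 : x.1 ≠ y.1 := fun h => h3 (Subtype.ext h)
    exact ⟨h4, h1 B hB _ x.2 _ y.2 h4⟩
  · rintro ⟨p, w⟩ ⟨q, w'⟩ _ ⟨hpq, hE⟩
    obtain ⟨B, hB, hp, hq, hu⟩ := h2 p q hpq hE
    obtain ⟨K, hK, hx, hy, hv⟩ := (hD B hB).2.2 (⟨p, hp⟩, w) (⟨q, hq⟩, w')
      (fun h => hpq (congrArg (fun z => z.1.1) h)) (fun h => hpq (congrArg Subtype.val h))
    refine ⟨K.map (wEmb W B), ⟨B, hB, K, hK, rfl⟩, ?_, ?_, ?_⟩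
    · exact Finset.mem_map.2 ⟨_, hx, rfl⟩
    · exact Finset.mem_map.2 ⟨_, hy, rfl⟩
    · rintro C ⟨B', hB', K', hK', rfl⟩ ha hb
      obtain ⟨⟨x, w1⟩, hx', he⟩ := Finset.mem_map.1 ha
      obtain ⟨⟨y, w2⟩, hy', he'⟩ := Finset.mem_map.1 hb
      obtain ⟨e1, e2⟩ := Prod.mk.inj he
      obtain ⟨e3, e4⟩ := Prod.mk.inj he'
      simp only at e1 e2 e3 e4
      subst e2 e4
      have hBB : B' = B := hu B' hB' (by rw [← e1]; exact x.2) (by rw [← e3]; exact y.2)
      subst hBB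
      have f1 : x = ⟨p, hp⟩ := Subtype.ext e1
      have f3 : y = ⟨q, hq⟩ := Subtype.ext e3
      rw [f1] at hx'
      rw [f3] at hy'
      rw [hv K' hK' hx' hy']

/-- the embedding of a group together with the extra points -/
def gV {P G : Type} (W F : Type) (γ : P → G) (g : G) :
    ({p // γ p = g} × W) ⊕ F ↪ (P × W) ⊕ F where
  toFun
    | .inl x => .inl (x.1.1, x.2)
    | .inr w => .inr w
  inj' := by
    rintro (⟨⟨x, hx⟩, w⟩ | w) (⟨⟨x', hx'⟩, w'⟩ | w') h <;> simp_all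

/-- the kind of the blocks covering a pair -/
def tauV {P W F G : Type} [DecidableEq G] (γ : P → G) (a b : (P × W) ⊕ F) : Option (Option G) :=
  match a, b with
  | .inl (p, _), .inl (q, _) => if γ p = γ q then some (some (γ p)) else some none
  | .inl (p, _), .inr _ => some (some (γ p))
  | .inr _, .inl (q, _) => some (some (γ q))
  | .inr _, .inr _ => none

theorem fillV {P W F G : Type} [DecidableEq P] [DecidableEq W] [DecidableEq F] [DecidableEq G]
    {k : ℕ} (γ : P → G)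
    (hG : ∃ 𝓑 : Set (Finset (P × W)), Cov (P × W) k (fun x y => γ x.1 ≠ γ y.1) 𝓑)
    (hI : ∀ g : G, ∃ 𝓑 : Set (Finset (({p // γ p = g} × W) ⊕ F)), Cov (({p // γ p = g} × W) ⊕ F) k
      (fun x y => ¬ (x.isRight = true ∧ y.isRight = true)) 𝓑)
    (hW : ∃ 𝓑 : Set (Finset F), IsS2 F k 𝓑) :
    ∃ 𝓑 : Set (Finset ((P × W) ⊕ F)), IsS2 ((P × W) ⊕ F) k 𝓑 := by
  classical
  obtain ⟨BG, hG⟩ := hG
  choose BI hI using hI
  obtain ⟨BW, hW⟩ := hW
  refine isS2_of_cover (ι := Option (Option G))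
    (fun c => match c with
      | none => fun a b => ∃ x y, (Function.Embedding.inr : F ↪ (P × W) ⊕ F) x = a ∧
          (Function.Embedding.inr : F ↪ (P × W) ⊕ F) y = b ∧ True
      | some none => fun a b => ∃ x y, (Function.Embedding.inl : P × W ↪ (P × W) ⊕ F) x = a
          ∧ (Function.Embedding.inl : P × W ↪ (P × W) ⊕ F) y = b ∧ γ x.1 ≠ γ y.1
      | some (some i) => fun a b => ∃ x y, gV W F γ i x = a ∧ gV W F γ i y = b ∧
          ¬ (x.isRight = true ∧ y.isRight = true))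
    (fun c => match c with
      | none => {C | ∃ B ∈ BW, C = B.map Function.Embedding.inr}
      | some none => {C | ∃ B ∈ BG, C = B.map Function.Embedding.inl}
      | some (some i) => {C | ∃ B ∈ BI i, C = B.map (gV W F γ i)})
    ?_ (tauV γ) ?_ ?_
  · rintro (_ | _ | i)
    · exact cov_map _ (cov_of_isS2 hW)
    · exact cov_map _ hG
    · exact cov_map _ (hI i)
  · rintro (⟨p, x⟩ | w) (⟨q, y⟩ | w') hab
    · by_cases hij : γ p = γ q
      · have : tauV (W := W) (F := F) γ (.inl (p, x)) (.inl (q, y)) = some (some (γ p)) := by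
          simp [tauV, hij]
        rw [this]
        exact ⟨.inl (⟨p, rfl⟩, x), .inl (⟨q, hij.symm⟩, y), rfl, rfl, by simp⟩
      · have : tauV (W := W) (F := F) γ (.inl (p, x)) (.inl (q, y)) = some none := by
          simp [tauV, hij]
        rw [this]
        exact ⟨(p, x), (q, y), rfl, rfl, hij⟩
    · exact ⟨.inl (⟨p, rfl⟩, x), .inr w', rfl, rfl, by simp⟩
    · exact ⟨.inr w, .inl (⟨q, rfl⟩, y), rfl, rfl, by simp⟩
    · exact ⟨w, w', rfl, rfl, trivial⟩
  · rintro a b (_ | _ | i) hab h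
    · obtain ⟨x, y, rfl, rfl, -⟩ := h
      simp [tauV]
    · obtain ⟨⟨p, x⟩, ⟨q, y⟩, rfl, rfl, hxy⟩ := h
      simp only [ne_eq] at hxy
      simp [tauV, hxy]
    · obtain ⟨x, y, rfl, rfl, hxy⟩ := h
      rcases x with ⟨⟨x, hx⟩, w⟩ | x <;> rcases y with ⟨⟨y, hy⟩, w'⟩ | y <;>
        simp_all [tauV, gV]

/-- Weighting a truncated transversal design. -/
theorem truncT {u n : ℕ} {W : Type} [DecidableEq W] {k : ℕ} {T : Set (Fin u → Fin n)}
    (hT : ITD u (Fin n) (fun _ => False) T) (S : Fin u × Fin n → Prop) [DecidablePred S]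
    (sz : List ℕ)
    (hS : ∀ t ∈ T, ((Finset.univ : Finset (Fin u)).filter (fun i => S (i, t i))).card ∈ sz)
    (hI : ∀ m ∈ sz, ∃ 𝓑 : Set (Finset (Fin m × W)),
      Cov (Fin m × W) k (fun x y => x.1 ≠ y.1) 𝓑) :
    ∃ 𝓑 : Set (Finset ({p // S p} × W)),
      Cov ({p // S p} × W) k (fun x y => x.1.1.1 ≠ y.1.1.1) 𝓑 := by
  classical
  have hT := gdd_of_td hT
  obtain ⟨B, hB⟩ := wfc (P := {p // S p}) (W := W) (k := k) (fun a b => a.1.1 ≠ b.1.1)
    {C | ∃ t ∈ T, C = (bt t).subtype S} (by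
      rintro C ⟨t, ht, rfl⟩ a ha b hb hab
      rw [Finset.mem_subtype] at ha hb
      exact hT.2.1 _ ⟨t, ht, rfl⟩ _ ha _ hb (fun h => hab (Subtype.ext h))) (by
      intro a b hab hE
      obtain ⟨C, ⟨t, ht, rfl⟩, ha, hb, hu⟩ := hT.2.2 a.1 b.1 (fun h => hab (Subtype.ext h)) hE
      refine ⟨(bt t).subtype S, ⟨t, ht, rfl⟩, Finset.mem_subtype.2 ha, Finset.mem_subtype.2 hb, ?_⟩
      rintro D ⟨s, hs, rfl⟩ ha' hb'
      rw [Finset.mem_subtype] at ha' hb'
      rw [hu (bt s) ⟨s, hs, rfl⟩ ha' hb']) (by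
      rintro C ⟨t, ht, rfl⟩
      have hc : ((bt t).subtype S).card =
          ((Finset.univ : Finset (Fin u)).filter (fun i => S (i, t i))).card := by
        rw [Finset.card_subtype, bt, Finset.filter_map, Finset.card_map]
        rfl
      obtain ⟨𝓑, h𝓑⟩ := hI _ (hS t ht)
      have e : Fin ((Finset.univ : Finset (Fin u)).filter (fun i => S (i, t i))).card ≃
          {x // x ∈ (bt t).subtype S} :=
        Fintype.equivOfCardEq (by rw [Fintype.card_fin, Fintype.card_coe, hc])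
      refine ⟨_, cov_congr (cov_map (e.prodCongr (Equiv.refl W)).toEmbedding h𝓑) ?_⟩
      rintro ⟨a, w⟩ ⟨b, w'⟩ _
      constructor
      · rintro ⟨⟨x, u⟩, ⟨y, u'⟩, h1, h2, hxy⟩
        obtain ⟨h3, -⟩ := Prod.mk.inj h1
        obtain ⟨h4, -⟩ := Prod.mk.inj h2
        simp only at h3 h4 hxy ⊢
        rw [← h3, ← h4]
        exact fun h => hxy (e.injective h)
      · intro hab
        refine ⟨(e.symm a, w), (e.symm b, w'), ?_, ?_, ?_⟩
        · simp
        · simp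
        · exact fun h => hab (e.symm.injective h))
  refine ⟨B, cov_congr hB ?_⟩
  intro a b _
  constructor
  · exact fun h => h.2
  · exact fun h => ⟨fun he => h (by rw [he]), h⟩

/-- the blocks of a group divisible design of type `6⁸` with block size `7` (the lines of the
affine plane of order seven avoiding the origin) -/
def t68 : BT :=
  (.node (.node (.node (.node (.node (.leaf [0, 6, 15, 22, 25, 32, 41])
  (.node (.leaf [0, 7, 14, 21, 29, 34, 43])
  (.leaf [0, 8, 17, 19, 27, 38, 46])))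
  (.node (.leaf [0, 9, 16, 20, 33, 37, 47])
  (.node (.leaf [0, 10, 13, 28, 35, 39, 44])
  (.leaf [0, 11, 23, 26, 31, 40, 45]))))
  (.node (.node (.leaf [0, 12, 18, 24, 30, 36, 42])
  (.node (.leaf [1, 6, 14, 23, 30, 39, 46])
  (.leaf [1, 7, 12, 20, 27, 35, 40])))
  (.node (.leaf [1, 8, 15, 26, 34, 36, 47])
  (.node (.leaf [1, 9, 17, 18, 28, 32, 45])
  (.leaf [1, 10, 22, 29, 33, 38, 42])))))
  (.node (.node (.node (.leaf [1, 11, 16, 21, 24, 41, 44])
  (.node (.leaf [1, 13, 19, 25, 31, 37, 43])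
  (.leaf [2, 6, 17, 24, 33, 40, 43])))
  (.node (.leaf [2, 7, 15, 23, 28, 37, 42])
  (.node (.leaf [2, 8, 16, 18, 29, 31, 39])
  (.leaf [2, 9, 21, 25, 35, 36, 46]))))
  (.node (.node (.leaf [2, 10, 12, 19, 34, 41, 45])
  (.node (.leaf [2, 11, 13, 22, 27, 30, 47])
  (.leaf [2, 14, 20, 26, 32, 38, 44])))
  (.node (.leaf [3, 6, 16, 19, 26, 35, 42])
  (.node (.leaf [3, 7, 17, 22, 31, 36, 44])
  (.leaf [3, 8, 20, 28, 30, 41, 43]))))))
  (.node (.node (.node (.node (.leaf [3, 9, 13, 23, 24, 34, 38])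
  (.node (.leaf [3, 10, 14, 18, 25, 40, 47])
  (.leaf [3, 11, 12, 29, 32, 37, 46])))
  (.node (.leaf [3, 15, 21, 27, 33, 39, 45])
  (.node (.leaf [4, 6, 13, 20, 29, 36, 45])
  (.leaf [4, 7, 19, 24, 32, 39, 47]))))
  (.node (.node (.leaf [4, 8, 12, 23, 25, 33, 44])
  (.node (.leaf [4, 9, 14, 27, 31, 41, 42])
  (.leaf [4, 10, 17, 21, 26, 30, 37])))
  (.node (.leaf [4, 11, 15, 18, 35, 38, 43])
  (.node (.leaf [4, 16, 22, 28, 34, 40, 46])
  (.leaf [5, 6, 18, 27, 34, 37, 44])))))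
  (.node (.node (.node (.leaf [5, 7, 16, 25, 30, 38, 45])
  (.node (.leaf [5, 8, 13, 21, 32, 40, 42])
  (.leaf [5, 9, 12, 22, 26, 39, 43])))
  (.node (.leaf [5, 10, 15, 20, 24, 31, 46])
  (.node (.leaf [5, 11, 14, 19, 28, 33, 36])
  (.leaf [5, 17, 23, 29, 35, 41, 47]))))
  (.node (.node (.leaf [6, 12, 21, 28, 31, 38, 47])
  (.node (.leaf [7, 13, 18, 26, 33, 41, 46])
  (.leaf [8, 14, 22, 24, 35, 37, 45])))
  (.node (.leaf [9, 15, 19, 29, 30, 40, 44])
  (.node (.leaf [10, 16, 23, 27, 32, 36, 43])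
  (.leaf [11, 17, 20, 25, 34, 39, 42])))))))

/-- the groups of the design `t68` -/
def H68 : List (List ℕ) := (List.range 8).map fun i => List.range' (6 * i) 6

theorem h68_rel : ∀ x y : Fin 48, (¬ ∃ H ∈ H68, x.val ∈ H ∧ y.val ∈ H) ↔ x.val / 6 ≠ y.val / 6 := by
  decide +kernel

theorem gdd68 : ∃ 𝓑 : Set (Finset (Fin 8 × Fin 6)),
    Cov (Fin 8 × Fin 6) 7 (fun x y => x.1 ≠ y.1) 𝓑 := by
  obtain ⟨𝓑, hB⟩ := cov_of_tree2 7 48 t68 H68 (by decide +kernel) (by decide +kernel)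
    (by decide +kernel) (by decide +kernel)
  let e : Fin 48 ≃ Fin 8 × Fin 6 := (finProdFinEquiv (m := 8) (n := 6)).symm
  refine ⟨_, cov_congr (cov_map e.toEmbedding hB) ?_⟩
  have he : ∀ x : Fin 48, (e x).1.val = x.val / 6 := by
    intro x
    rfl
  intro a b _
  constructor
  · rintro ⟨x, y, rfl, rfl, hxy⟩
    rw [h68_rel] at hxy
    intro h
    apply hxy
    rw [← he, ← he]
    exact congrArg Fin.val h
  · intro hab
    refine ⟨e.symm a, e.symm b, e.apply_symm_apply a, e.apply_symm_apply b, ?_⟩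
    rw [h68_rel, ← he, ← he, e.apply_symm_apply, e.apply_symm_apply]
    intro h
    exact hab (Fin.ext h)

/-- base columns of a `(35,7;1,1;7)` quasi-difference matrix (the entry `0` at place `0` stands for
the empty entry) -/
def qd : ℕ → List ℕ
  | 0 => [0, 1, 16, 11, 11, 16, 1]
  | 1 => [0, 0, 1, 12, 14, 30, 8]
  | 2 => [0, 8, 30, 14, 12, 1, 0]
  | 3 => [0, 14, 0, 25, 16, 23, 17]
  | 4 => [0, 17, 23, 16, 25, 0, 14]
  | 5 => [0, 11, 14, 18, 0, 27, 15]
  | _ => [0, 15, 27, 0, 18, 14, 11]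

/-- the entries of a transversal design `TD(7,42)` -/
def g42 (q i : ℕ) : ℕ :=
  if q < 1715 then
    (if (i + 7 - (q / 35) % 7) % 7 = 0 then 35 + q / 245
      else ((qd (q / 245)).getD ((i + 7 - (q / 35) % 7) % 7) 0 + q % 35) % 35)
  else 35 + ((q - 1715) / 7 + i * ((q - 1715) % 7)) % 7

/-- the mask of the pairs of entries in two columns -/
def row42 (i j : ℕ) : ℕ := addBits ((List.range (42 * 42)).map fun q =>
    (g42 q i % 42) * 42 + g42 q j % 42) 0

theorem o42_01 : row42 0 1 = 2 ^ (42 * 42) - 1 := by decide +kernel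

theorem o42_02 : row42 0 2 = 2 ^ (42 * 42) - 1 := by decide +kernel

theorem o42_03 : row42 0 3 = 2 ^ (42 * 42) - 1 := by decide +kernel

theorem o42_04 : row42 0 4 = 2 ^ (42 * 42) - 1 := by decide +kernel

theorem o42_05 : row42 0 5 = 2 ^ (42 * 42) - 1 := by decide +kernel

theorem o42_06 : row42 0 6 = 2 ^ (42 * 42) - 1 := by decide +kernel

theorem o42_10 : row42 1 0 = 2 ^ (42 * 42) - 1 := by decide +kernel

theorem o42_12 : row42 1 2 = 2 ^ (42 * 42) - 1 := by decide +kernel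

theorem o42_13 : row42 1 3 = 2 ^ (42 * 42) - 1 := by decide +kernel

theorem o42_14 : row42 1 4 = 2 ^ (42 * 42) - 1 := by decide +kernel

theorem o42_15 : row42 1 5 = 2 ^ (42 * 42) - 1 := by decide +kernel

theorem o42_16 : row42 1 6 = 2 ^ (42 * 42) - 1 := by decide +kernel

theorem o42_20 : row42 2 0 = 2 ^ (42 * 42) - 1 := by decide +kernel

theorem o42_21 : row42 2 1 = 2 ^ (42 * 42) - 1 := by decide +kernel

theorem o42_23 : row42 2 3 = 2 ^ (42 * 42) - 1 := by decide +kernel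

theorem o42_24 : row42 2 4 = 2 ^ (42 * 42) - 1 := by decide +kernel

theorem o42_25 : row42 2 5 = 2 ^ (42 * 42) - 1 := by decide +kernel

theorem o42_26 : row42 2 6 = 2 ^ (42 * 42) - 1 := by decide +kernel

theorem o42_30 : row42 3 0 = 2 ^ (42 * 42) - 1 := by decide +kernel

theorem o42_31 : row42 3 1 = 2 ^ (42 * 42) - 1 := by decide +kernel

theorem o42_32 : row42 3 2 = 2 ^ (42 * 42) - 1 := by decide +kernel

theorem o42_34 : row42 3 4 = 2 ^ (42 * 42) - 1 := by decide +kernel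

theorem o42_35 : row42 3 5 = 2 ^ (42 * 42) - 1 := by decide +kernel

theorem o42_36 : row42 3 6 = 2 ^ (42 * 42) - 1 := by decide +kernel

theorem o42_40 : row42 4 0 = 2 ^ (42 * 42) - 1 := by decide +kernel

theorem o42_41 : row42 4 1 = 2 ^ (42 * 42) - 1 := by decide +kernel

theorem o42_42 : row42 4 2 = 2 ^ (42 * 42) - 1 := by decide +kernel

theorem o42_43 : row42 4 3 = 2 ^ (42 * 42) - 1 := by decide +kernel

theorem o42_45 : row42 4 5 = 2 ^ (42 * 42) - 1 := by decide +kernel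

theorem o42_46 : row42 4 6 = 2 ^ (42 * 42) - 1 := by decide +kernel

theorem o42_50 : row42 5 0 = 2 ^ (42 * 42) - 1 := by decide +kernel

theorem o42_51 : row42 5 1 = 2 ^ (42 * 42) - 1 := by decide +kernel

theorem o42_52 : row42 5 2 = 2 ^ (42 * 42) - 1 := by decide +kernel

theorem o42_53 : row42 5 3 = 2 ^ (42 * 42) - 1 := by decide +kernel

theorem o42_54 : row42 5 4 = 2 ^ (42 * 42) - 1 := by decide +kernel

theorem o42_56 : row42 5 6 = 2 ^ (42 * 42) - 1 := by decide +kernel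

theorem o42_60 : row42 6 0 = 2 ^ (42 * 42) - 1 := by decide +kernel

theorem o42_61 : row42 6 1 = 2 ^ (42 * 42) - 1 := by decide +kernel

theorem o42_62 : row42 6 2 = 2 ^ (42 * 42) - 1 := by decide +kernel

theorem o42_63 : row42 6 3 = 2 ^ (42 * 42) - 1 := by decide +kernel

theorem o42_64 : row42 6 4 = 2 ^ (42 * 42) - 1 := by decide +kernel

theorem o42_65 : row42 6 5 = 2 ^ (42 * 42) - 1 := by decide +kernel

theorem g42_all : (i j : ℕ) → i < 7 → j < 7 → i ≠ j → row42 i j = 2 ^ (42 * 42) - 1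
  | 0, 0, _, _, h => absurd rfl h
  | 0, 1, _, _, _ => o42_01
  | 0, 2, _, _, _ => o42_02
  | 0, 3, _, _, _ => o42_03
  | 0, 4, _, _, _ => o42_04
  | 0, 5, _, _, _ => o42_05
  | 0, 6, _, _, _ => o42_06
  | 1, 0, _, _, _ => o42_10
  | 1, 1, _, _, h => absurd rfl h
  | 1, 2, _, _, _ => o42_12
  | 1, 3, _, _, _ => o42_13
  | 1, 4, _, _, _ => o42_14
  | 1, 5, _, _, _ => o42_15
  | 1, 6, _, _, _ => o42_16
  | 2, 0, _, _, _ => o42_20
  | 2, 1, _, _, _ => o42_21
  | 2, 2, _, _, h => absurd rfl h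
  | 2, 3, _, _, _ => o42_23
  | 2, 4, _, _, _ => o42_24
  | 2, 5, _, _, _ => o42_25
  | 2, 6, _, _, _ => o42_26
  | 3, 0, _, _, _ => o42_30
  | 3, 1, _, _, _ => o42_31
  | 3, 2, _, _, _ => o42_32
  | 3, 3, _, _, h => absurd rfl h
  | 3, 4, _, _, _ => o42_34
  | 3, 5, _, _, _ => o42_35
  | 3, 6, _, _, _ => o42_36
  | 4, 0, _, _, _ => o42_40
  | 4, 1, _, _, _ => o42_41
  | 4, 2, _, _, _ => o42_42
  | 4, 3, _, _, _ => o42_43
  | 4, 4, _, _, h => absurd rfl h
  | 4, 5, _, _, _ => o42_45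
  | 4, 6, _, _, _ => o42_46
  | 5, 0, _, _, _ => o42_50
  | 5, 1, _, _, _ => o42_51
  | 5, 2, _, _, _ => o42_52
  | 5, 3, _, _, _ => o42_53
  | 5, 4, _, _, _ => o42_54
  | 5, 5, _, _, h => absurd rfl h
  | 5, 6, _, _, _ => o42_56
  | 6, 0, _, _, _ => o42_60
  | 6, 1, _, _, _ => o42_61
  | 6, 2, _, _, _ => o42_62
  | 6, 3, _, _, _ => o42_63
  | 6, 4, _, _, _ => o42_64
  | 6, 5, _, _, _ => o42_65
  | 6, 6, _, _, h => absurd rfl h
  | 0, j + 7, _, h, _ => absurd h (by omega)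
  | 1, j + 7, _, h, _ => absurd h (by omega)
  | 2, j + 7, _, h, _ => absurd h (by omega)
  | 3, j + 7, _, h, _ => absurd h (by omega)
  | 4, j + 7, _, h, _ => absurd h (by omega)
  | 5, j + 7, _, h, _ => absurd h (by omega)
  | 6, j + 7, _, h, _ => absurd h (by omega)
  | i + 7, _, h, _, _ => absurd h (by omega)

theorem g42_ok : ∀ i j : Fin 7, i ≠ j → addBits ((List.range (42 * 42)).map fun q =>
    (g42 q i.val % 42) * 42 + g42 q j.val % 42) 0 = 2 ^ (42 * 42) - 1 :=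
  fun i j h => g42_all i.val j.val i.2 j.2 (fun e => h (Fin.ext e))

/-- multiplication by the generator of the field with eight elements -/
def xt8 (y : ℕ) : ℕ := if y < 4 then 2 * y else (2 * y) ^^^ 11

/-- the entries of a transversal design `TD(8,8)` -/
def g8 (q i : ℕ) : ℕ :=
  if i = 7 then q % 8 else
    (q / 8) ^^^ (if i % 2 = 1 then q % 8 else 0) ^^^ (if (i / 2) % 2 = 1 then xt8 (q % 8) else 0)
      ^^^ (if i / 4 = 1 then xt8 (xt8 (q % 8)) else 0)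

theorem g8_ok : ∀ i j : Fin 8, i ≠ j → addBits ((List.range (8 * 8)).map fun q =>
    (g8 q i.val % 8) * 8 + g8 q j.val % 8) 0 = 2 ^ (8 * 8) - 1 := by
  decide +kernel

/-- a group divisible design of type `42^m` with block size seven -/
def G42 (m : ℕ) : Prop := ∃ 𝓑 : Set (Finset (Fin m × Fin 42)),
  Cov (Fin m × Fin 42) 7 (fun x y => x.1 ≠ y.1) 𝓑

theorem g42_7 : G42 7 := ⟨_, gdd_of_td (itd_of_fun _ (tdk_ok 7 42 g42 g42_ok))⟩

theorem g42_8 : G42 8 := by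
  obtain ⟨D, hD⟩ := gdd68
  have h := gdd_infl (itd_of_fun _ (tdk_ok 8 7 (gp 8 7) gp7_ok)) hD
  let e : Fin 8 × (Fin 7 × Fin 6) ≃ Fin 8 × Fin 42 :=
    (Equiv.refl (Fin 8)).prodCongr (finProdFinEquiv (m := 7) (n := 6))
  have he : ∀ x, (e x).1 = x.1 := fun x => rfl
  refine ⟨_, cov_congr (cov_map e.toEmbedding h) ?_⟩
  intro a b _
  constructor
  · rintro ⟨x, y, rfl, rfl, hxy⟩
    exact hxy
  · intro hab
    refine ⟨e.symm a, e.symm b, e.apply_symm_apply a, e.apply_symm_apply b, ?_⟩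
    rw [← he, ← he, e.apply_symm_apply, e.apply_symm_apply]
    exact hab

/-- A Steiner system with a distinguished point, as a sum of types. -/
theorem cov_sum_point {k v : ℕ} {X : Type} [DecidableEq X] [Fintype X]
    (hX : Fintype.card X + 1 = v) (h : ∃ 𝓑 : Set (Finset (Fin v)), IsS2 (Fin v) k 𝓑) :
    ∃ 𝓑 : Set (Finset (X ⊕ Fin 1)), Cov (X ⊕ Fin 1) k
      (fun x y => ¬ (x.isRight = true ∧ y.isRight = true)) 𝓑 := by
  have e1 : Fin v ≃ X ⊕ Fin 1 := Fintype.equivOfCardEq (by simp [← hX])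
  obtain ⟨𝓑, h⟩ := transport k e1 h
  refine ⟨𝓑, cov_congr (cov_of_isS2 h) ?_⟩
  rintro (a | a) (b | b) hab
  · simp
  · simp
  · simp
  · exact absurd (by rw [Subsingleton.elim a b]) hab

/-- the points kept for `2479` -/
def P59 (p : Fin 8 × Fin 8) : Prop := ¬ (p.1 = 7 ∧ 3 ≤ p.2.val)

instance : DecidablePred P59 := fun p => inferInstanceAs (Decidable (¬ (p.1 = 7 ∧ 3 ≤ p.2.val)))

theorem P59_sz : ∀ p : Fin 8 × Fin 8,
    ((Finset.univ : Finset (Fin 8)).filter (fun i => P59 (i, tdk 8 8 g8 p i))).card ∈ [7, 8] := by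
  decide +kernel

/-- `2479 = 42 · 59 + 1`, `59 = 7 · 8 + 3`. -/
theorem s2479 : ∃ 𝓑 : Set (Finset (Fin 2479)), IsS2 (Fin 2479) 7 𝓑 := by
  have hG := truncT (W := Fin 42) (k := 7) (itd_of_fun _ (tdk_ok 8 8 g8 g8_ok)) P59 [7, 8] (by
    rintro t ⟨p, rfl⟩
    exact P59_sz p) (by
    intro m hm
    simp only [List.mem_cons, List.not_mem_nil, or_false] at hm
    rcases hm with rfl | rfl
    · exact g42_7
    · exact g42_8)
  have hc : ∀ g : Fin 8, Fintype.card {p : {p // P59 p} // p.1.1 = g} =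
      if g = 7 then 3 else 8 := by decide +kernel
  have hI : ∀ g : Fin 8, ∃ 𝓑 : Set (Finset (({p : {p // P59 p} // p.1.1 = g} × Fin 42) ⊕ Fin 1)),
      Cov (({p : {p // P59 p} // p.1.1 = g} × Fin 42) ⊕ Fin 1) 7
        (fun x y => ¬ (x.isRight = true ∧ y.isRight = true)) 𝓑 := by
    intro g
    by_cases hg : g = 7
    · exact cov_sum_point (v := 127)
        (by rw [Fintype.card_prod, hc, if_pos hg, Fintype.card_fin]) ex127
    · exact cov_sum_point (v := 337)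
        (by rw [Fintype.card_prod, hc, if_neg hg, Fintype.card_fin]) ex337
  have hW : ∃ 𝓑 : Set (Finset (Fin 1)), IsS2 (Fin 1) 7 𝓑 := by
    refine ⟨∅, by simp, ?_⟩
    intro a b hab
    exact absurd (Subsingleton.elim a b) hab
  have hn : Fintype.card {p // P59 p} = 59 := by decide +kernel
  have e : ({p // P59 p} × Fin 42) ⊕ Fin 1 ≃ Fin 2479 := Fintype.equivOfCardEq (by
    rw [Fintype.card_sum, Fintype.card_prod, hn, Fintype.card_fin, Fintype.card_fin,
      Fintype.card_fin])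
  exact transport 7 e (fillV (fun p => p.1.1) hG hI hW)

end Pool.Agent.TH848.Rec
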