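import Pool.Agent.TH848.KM.Tree

/-!
Recursive constructions of pairwise balanced designs: families of `k`-subsets covering exactly the
pairs of a relation, images and unions of such families, and the filling of an incomplete
transversal design.
-/

set_option autoImplicit false

namespace Pool.Agent.TH848.Rec

open Pool.Agent.H816R2.KM2 Pool.Agent.TH848.KM

/-- `Cov X k E 𝓑`: the members of `𝓑` are `k`-subsets, two distinct points of a member are related
by `E`, and two distinct related points lie in exactly one member. -/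
def Cov (X : Type) [DecidableEq X] (k : ℕ) (E : X → X → Prop) (𝓑 : Set (Finset X)) : Prop :=
  (∀ B ∈ 𝓑, B.card = k) ∧
  (∀ B ∈ 𝓑, ∀ a ∈ B, ∀ b ∈ B, a ≠ b → E a b) ∧
  ∀ a b : X, a ≠ b → E a b → ∃ B ∈ 𝓑, a ∈ B ∧ b ∈ B ∧ ∀ D ∈ 𝓑, a ∈ D → b ∈ D → D = B

theorem cov_of_isS2 {X : Type} [DecidableEq X] {k : ℕ} {𝓑 : Set (Finset X)} (h : IsS2 X k 𝓑) :
    Cov X k (fun _ _ => True) 𝓑 := by
  refine ⟨h.1, fun _ _ _ _ _ _ _ => trivial, ?_⟩
  intro a b hab _
  obtain ⟨B, ⟨hB, ha, hb⟩, hu⟩ := h.2 a b hab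
  exact ⟨B, hB, ha, hb, fun D hD h1 h2 => hu D ⟨hD, h1, h2⟩⟩

theorem cov_map {X V : Type} [DecidableEq X] [DecidableEq V] {k : ℕ} {E : X → X → Prop}
    {𝓑 : Set (Finset X)} (f : X ↪ V) (h : Cov X k E 𝓑) :
    Cov V k (fun a b => ∃ x y, f x = a ∧ f y = b ∧ E x y) {C | ∃ B ∈ 𝓑, C = B.map f} := by
  obtain ⟨h1, h2, h3⟩ := h
  refine ⟨?_, ?_, ?_⟩
  · rintro C ⟨B, hB, rfl⟩
    rw [Finset.card_map]
    exact h1 B hB
  · rintro C ⟨B, hB, rfl⟩ a ha b hb hab
    obtain ⟨x, hx, rfl⟩ := Finset.mem_map.1 ha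
    obtain ⟨y, hy, rfl⟩ := Finset.mem_map.1 hb
    exact ⟨x, y, rfl, rfl, h2 B hB x hx y hy (fun h => hab (by rw [h]))⟩
  · rintro a b hab ⟨x, y, rfl, rfl, hE⟩
    obtain ⟨B, hB, hx, hy, hu⟩ := h3 x y (fun h => hab (by rw [h])) hE
    refine ⟨B.map f, ⟨B, hB, rfl⟩, Finset.mem_map_of_mem f hx, Finset.mem_map_of_mem f hy, ?_⟩
    rintro D ⟨B', hB', rfl⟩ h4 h5
    rw [Finset.mem_map'] at h4 h5
    rw [hu B' hB' h4 h5]

theorem isS2_of_cover {ι V : Type} [DecidableEq V] {k : ℕ} (E : ι → V → V → Prop)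
    (𝓑 : ι → Set (Finset V)) (h : ∀ i, Cov V k (E i) (𝓑 i)) (τ : V → V → ι)
    (h1 : ∀ a b, a ≠ b → E (τ a b) a b) (h2 : ∀ a b i, a ≠ b → E i a b → τ a b = i) :
    ∃ 𝓑' : Set (Finset V), IsS2 V k 𝓑' := by
  refine ⟨{B | ∃ i, B ∈ 𝓑 i}, ?_, ?_⟩
  · rintro B ⟨i, hB⟩
    exact (h i).1 B hB
  · intro a b hab
    obtain ⟨B, hB, ha, hb, hu⟩ := (h (τ a b)).2.2 a b hab (h1 a b hab)
    refine ⟨B, ⟨⟨_, hB⟩, ha, hb⟩, ?_⟩
    rintro D ⟨⟨j, hD⟩, ha', hb'⟩
    have hj := h2 a b j hab ((h j).2.1 D hD a ha' b hb' hab)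
    rw [← hj] at hD
    exact hu D hD ha' hb'

theorem cov_congr {X : Type} [DecidableEq X] {k : ℕ} {E E' : X → X → Prop} {𝓑 : Set (Finset X)}
    (h : Cov X k E 𝓑) (hE : ∀ a b, a ≠ b → (E a b ↔ E' a b)) : Cov X k E' 𝓑 :=
  ⟨h.1, fun B hB a ha b hb hab => (hE a b hab).1 (h.2.1 B hB a ha b hb hab),
    fun a b hab h' => h.2.2 a b hab ((hE a b hab).2 h')⟩

/-! ### Counting -/

theorem pairE {X : Type} [Fintype X] [DecidableEq X] (k : ℕ) (E : X → X → Prop)
    [DecidableRel E] (𝓑 : Finset (Finset X)) (hk : ∀ B ∈ 𝓑, B.card = k)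
    (hcov : ∀ x y : X, x ≠ y → E x y → ∃ B ∈ 𝓑, x ∈ B ∧ y ∈ B)
    (hcount : 𝓑.card * (k * k - k) ≤
      ((Finset.univ : Finset X).offDiag.filter fun p => E p.1 p.2).card) :
    ∃ 𝓑' : Set (Finset X), Cov X k E 𝓑' := by
  classical
  have key : ∀ D ∈ 𝓑, ∀ a ∈ D, ∀ b ∈ D, a ≠ b →
      (E a b → ∃ B ∈ 𝓑, B ≠ D ∧ a ∈ B ∧ b ∈ B) → False := by
    intro D hD a ha' b hb' hab hH
    have hoff : ∀ B ∈ 𝓑, B.offDiag.card = k * k - k := by
      intro B hB
      rw [Finset.offDiag_card, hk B hB]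
    have hsub : ((Finset.univ : Finset X).offDiag.filter fun p => E p.1 p.2) ⊆
        ((𝓑.erase D).biUnion Finset.offDiag) ∪ (D.offDiag.erase (a, b)) := by
      intro p hp
      rw [Finset.mem_filter, Finset.mem_offDiag] at hp
      rw [Finset.mem_union, Finset.mem_biUnion]
      by_cases hpd : p = (a, b)
      · left
        rw [hpd] at hp
        obtain ⟨B, hB, hne, h1, h2⟩ := hH hp.2
        refine ⟨B, Finset.mem_erase.2 ⟨hne, hB⟩, ?_⟩
        rw [hpd, Finset.mem_offDiag]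
        exact ⟨h1, h2, hab⟩
      · obtain ⟨B, hB, hE1, hE2⟩ := hcov p.1 p.2 hp.1.2.2 hp.2
        by_cases hED : B = D
        · right
          rw [Finset.mem_erase, Finset.mem_offDiag, ← hED]
          exact ⟨hpd, hE1, hE2, hp.1.2.2⟩
        · left
          exact ⟨B, Finset.mem_erase.2 ⟨hED, hB⟩, Finset.mem_offDiag.2 ⟨hE1, hE2, hp.1.2.2⟩⟩
    have hc1 := Finset.card_le_card hsub
    have hc2 := Finset.card_union_le ((𝓑.erase D).biUnion Finset.offDiag) (D.offDiag.erase (a, b))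
    have hc3 : ((𝓑.erase D).biUnion Finset.offDiag).card ≤ (𝓑.erase D).card * (k * k - k) := by
      refine Finset.card_biUnion_le_card_mul _ _ _ ?_
      intro B hB
      exact (hoff B (Finset.mem_of_mem_erase hB)).le
    have hmem : (a, b) ∈ D.offDiag := Finset.mem_offDiag.2 ⟨ha', hb', hab⟩
    have hc4 : (D.offDiag.erase (a, b)).card = (k * k - k) - 1 := by
      rw [Finset.card_erase_of_mem hmem, hoff D hD]
    have hc5 : (𝓑.erase D).card = 𝓑.card - 1 := Finset.card_erase_of_mem hD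
    have hc6 : 0 < 𝓑.card := Finset.card_pos.2 ⟨D, hD⟩
    have hc7 : 0 < k * k - k := by
      rw [← hoff D hD]
      exact Finset.card_pos.2 ⟨_, hmem⟩
    have hc9 : (𝓑.card - 1) * (k * k - k) + ((k * k - k) - 1) < 𝓑.card * (k * k - k) := by
      obtain ⟨m, hm⟩ : ∃ m, 𝓑.card = m + 1 := ⟨𝓑.card - 1, by omega⟩
      rw [hm, Nat.add_sub_cancel, Nat.succ_mul]
      omega
    rw [hc5] at hc3
    omega
  refine ⟨{B | B ∈ 𝓑}, fun B hB => hk B hB, ?_, ?_⟩
  · intro B hB a ha b hb hab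
    by_contra hE
    exact key B hB a ha b hb hab (fun h => absurd h hE)
  · intro a b hab hE
    obtain ⟨B, hB, ha, hb⟩ := hcov a b hab hE
    refine ⟨B, hB, ha, hb, ?_⟩
    intro D hD ha' hb'
    by_contra hne
    exact key D hD a ha' b hb' hab (fun _ => ⟨B, hB, fun h => hne h.symm, ha, hb⟩)

/-- The finite set of the points of `Fin v` whose value is listed. -/
def fs (v : ℕ) (B : List ℕ) : Finset (Fin v) := Finset.univ.filter fun x => x.val ∈ B

theorem card_fs (v : ℕ) (B : List ℕ) (h1 : B.Nodup) (h2 : ∀ x ∈ B, x < v) :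
    (fs v B).card = B.length := by
  rw [← List.toFinset_card_of_nodup h1, ← Finset.card_map Fin.valEmbedding]
  congr 1
  ext x
  rw [Finset.mem_map, List.mem_toFinset]
  constructor
  · rintro ⟨y, hy, rfl⟩
    exact (Finset.mem_filter.1 hy).2
  · intro hx
    exact ⟨⟨x, h2 x hx⟩, Finset.mem_filter.2 ⟨Finset.mem_univ _, hx⟩, rfl⟩

theorem cov_of_tree (k v w : ℕ) (t : BT) (Hs : List ℕ)
    (h1 : t.allB (okB k v) = true) (hn : Hs.Nodup) (hlt : ∀ x ∈ Hs, x < v) (hw : Hs.length = w)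
    (h2 : t.size * (k * k - k) ≤ v * v - v - (w * w - w))
    (h3 : (t.rows (fun _ B => B) (fun p => p * v) v |||
      rowN (fun _ B => B) (fun p => p * v) v Hs Hs == 2 ^ (v * v) - 1) = true) :
    ∃ 𝓑 : Set (Finset (Fin v)), Cov (Fin v) k (fun x y => ¬ (x.val ∈ Hs ∧ y.val ∈ Hs)) 𝓑 := by
  classical
  have h1' := BT.allB_spec _ _ h1
  rw [List.all_eq_true] at h1'
  refine pairE k _ ((t.toList.map (fs v)).toFinset) ?_ ?_ ?_
  · intro B hB
    rw [List.mem_toFinset, List.mem_map] at hB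
    obtain ⟨L, hL, rfl⟩ := hB
    obtain ⟨ha, hb, hc⟩ := okB_spec (h1' L hL)
    rw [card_fs v L (by first | exact hb | exact ha) hc]
    first | exact ha | exact hb
  · intro x y hxy hE
    rw [beq_iff_eq] at h3
    have hx := x.2
    have hy := y.2
    have h8 : Nat.testBit (2 ^ (v * v) - 1) (x.val * v + y.val) = true := by
      rw [Nat.testBit_two_pow_sub_one, decide_eq_true_eq]
      calc x.val * v + y.val < x.val * v + v := by omega
        _ = (x.val + 1) * v := by ring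
        _ ≤ v * v := Nat.mul_le_mul_right _ hx
    rw [← h3, Nat.testBit_or, Bool.or_eq_true] at h8
    have hdiv : ∀ p q : ℕ, p < v → q < v → p * v ≤ x.val * v + y.val →
        x.val * v + y.val - p * v = q → p = x.val ∧ q = y.val := by
      intro p q hp hq hle he
      have hpx : p = x.val := by
        rcases Nat.lt_trichotomy p x.val with h | h | h
        · exfalso
          have : (p + 1) * v ≤ x.val * v := Nat.mul_le_mul_right _ h
          rw [add_mul, one_mul] at this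
          omega
        · exact h
        · exfalso
          have : (x.val + 1) * v ≤ p * v := Nat.mul_le_mul_right _ h
          rw [add_mul, one_mul] at this
          omega
      refine ⟨hpx, ?_⟩
      rw [hpx] at he
      omega
    rcases h8 with h8 | h8
    · obtain ⟨B, hB, p, hp, hpv, hle, hmem⟩ := BT.rows_spec _ _ _ _ _ h8
      obtain ⟨ha, hb, hc⟩ := okB_spec (h1' B hB)
      obtain ⟨e1, e2⟩ := hdiv p _ hpv (hc _ hmem) hle rfl
      refine ⟨fs v B, List.mem_toFinset.2 (List.mem_map.2 ⟨B, hB, rfl⟩), ?_, ?_⟩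
      · exact Finset.mem_filter.2 ⟨Finset.mem_univ _, by rw [← e1]; exact hp⟩
      · exact Finset.mem_filter.2 ⟨Finset.mem_univ _, by rw [← e2]; exact hmem⟩
    · obtain ⟨p, hp, hpv, hle, hmem⟩ := rowN_spec _ _ _ _ _ _ h8
      obtain ⟨e1, e2⟩ := hdiv p _ hpv (hlt _ hmem) hle rfl
      exact absurd ⟨by rw [← e1]; exact hp, by rw [← e2]; exact hmem⟩ hE
  · have hc1 : ((t.toList.map (fs v)).toFinset).card ≤ t.size := by
      calc ((t.toList.map (fs v)).toFinset).card ≤ (t.toList.map (fs v)).length :=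
            List.toFinset_card_le _
        _ = t.size := by rw [List.length_map, BT.size_spec]
    have hc2 : ((Finset.univ : Finset (Fin v)).offDiag.filter
        fun p => (p.1.val ∈ Hs ∧ p.2.val ∈ Hs)) = (fs v Hs).offDiag := by
      ext p
      rw [Finset.mem_filter, Finset.mem_offDiag, Finset.mem_offDiag]
      simp only [fs, Finset.mem_filter, Finset.mem_univ, true_and]
      tauto
    have hc3 : ((Finset.univ : Finset (Fin v)).offDiag.filter
        fun p => ¬ (p.1.val ∈ Hs ∧ p.2.val ∈ Hs)).card = v * v - v - (w * w - w) := by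
      have h := Finset.card_filter_add_card_filter_not (s := (Finset.univ : Finset (Fin v)).offDiag)
        (fun p => (p.1.val ∈ Hs ∧ p.2.val ∈ Hs))
      rw [hc2, Finset.offDiag_card, card_fs v Hs hn hlt, hw, Finset.offDiag_card,
        Finset.card_univ, Fintype.card_fin] at h
      omega
    rw [hc3]
    exact le_trans (Nat.mul_le_mul_right _ hc1) h2

end Pool.Agent.TH848.Rec
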