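import Pool.Agent.TH848.Rec.Basic

/-!
A Steiner system `S(2,6,76)`.
-/

set_option autoImplicit false
set_option maxRecDepth 100000

namespace Pool.Agent.TH848.Rec

open Pool.Agent.H816R2.KM2 Pool.Agent.TH848.KM

def d76_0 : BT :=
  (.node (.node (.node (.node (.node (.node (.leaf [0, 1, 14, 20, 23, 74])
  (.leaf [0, 2, 6, 58, 60, 64]))
  (.node (.leaf [0, 3, 8, 13, 17, 43])
  (.leaf [0, 4, 18, 36, 52, 55])))
  (.node (.node (.leaf [0, 5, 27, 31, 62, 73])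
  (.leaf [0, 7, 11, 38, 51, 69]))
  (.node (.leaf [0, 9, 24, 29, 39, 49])
  (.leaf [0, 10, 19, 45, 50, 66]))))
  (.node (.node (.node (.leaf [0, 12, 26, 30, 37, 56])
  (.leaf [0, 15, 16, 33, 57, 68]))
  (.node (.leaf [0, 21, 35, 41, 65, 71])
  (.leaf [0, 22, 42, 44, 72, 75])))
  (.node (.node (.leaf [0, 25, 47, 48, 53, 67])
  (.leaf [0, 28, 54, 61, 63, 70]))
  (.node (.leaf [0, 32, 34, 40, 46, 59])
  (.leaf [1, 2, 34, 53, 55, 72])))))
  (.node (.node (.node (.node (.leaf [1, 3, 26, 32, 35, 62])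
  (.leaf [1, 4, 10, 65, 67, 73]))
  (.node (.leaf [1, 5, 13, 59, 63, 69])
  (.leaf [1, 6, 9, 38, 50, 56])))
  (.node (.node (.leaf [1, 7, 15, 18, 24, 30])
  (.leaf [1, 8, 22, 28, 40, 41]))
  (.node (.leaf [1, 11, 12, 42, 60, 66])
  (.leaf [1, 16, 17, 45, 47, 54]))))
  (.node (.node (.node (.leaf [1, 19, 31, 33, 43, 71])
  (.leaf [1, 21, 27, 29, 57, 58]))
  (.node (.leaf [1, 25, 36, 49, 70, 75])
  (.leaf [1, 37, 39, 48, 64, 68])))
  (.node (.node (.leaf [1, 44, 46, 51, 52, 61])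
  (.leaf [2, 3, 28, 47, 57, 69]))
  (.node (.leaf [2, 4, 5, 17, 24, 66])
  (.leaf [2, 7, 35, 37, 67, 75]))))))
  (.node (.node (.node (.node (.node (.leaf [2, 8, 16, 25, 26, 31])
  (.leaf [2, 9, 13, 48, 54, 62]))
  (.node (.leaf [2, 10, 22, 32, 49, 51])
  (.leaf [2, 11, 21, 52, 56, 63])))
  (.node (.node (.leaf [2, 12, 14, 43, 61, 65])
  (.leaf [2, 15, 38, 45, 70, 74]))
  (.node (.leaf [2, 18, 20, 39, 46, 50])
  (.leaf [2, 19, 30, 40, 42, 73]))))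
  (.node (.node (.node (.leaf [2, 23, 27, 33, 36, 41])
  (.leaf [2, 29, 44, 59, 68, 71]))
  (.node (.leaf [3, 4, 29, 30, 31, 53])
  (.leaf [3, 5, 38, 46, 55, 64])))
  (.node (.node (.leaf [3, 6, 14, 16, 27, 40])
  (.leaf [3, 7, 41, 44, 49, 66]))
  (.node (.leaf [3, 9, 19, 60, 70, 72])
  (.leaf [3, 10, 15, 25, 37, 52])))))
  (.node (.node (.node (.node (.leaf [3, 11, 24, 61, 67, 74])
  (.leaf [3, 12, 18, 21, 33, 75]))
  (.node (.leaf [3, 20, 22, 48, 63, 71])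
  (.leaf [3, 23, 39, 51, 56, 65])))
  (.node (.node (.leaf [3, 34, 50, 54, 68, 73])
  (.leaf [3, 36, 42, 45, 58, 59]))
  (.node (.leaf [4, 6, 42, 48, 49, 74])
  (.leaf [4, 7, 43, 46, 57, 60]))))
  (.node (.node (.node (.leaf [4, 8, 9, 27, 37, 61])
  (.leaf [4, 11, 28, 32, 33, 39]))
  (.node (.leaf [4, 12, 25, 62, 63, 68])
  (.leaf [4, 13, 16, 35, 38, 44])))
  (.node (.node (.leaf [4, 14, 26, 34, 47, 75])
  (.leaf [4, 15, 22, 54, 56, 59]))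
  (.node (.leaf [4, 19, 20, 41, 58, 69])
  (.leaf [4, 21, 23, 45, 64, 72])))))))

def d76_1 : BT :=
  (.node (.node (.node (.node (.node (.node (.leaf [4, 40, 50, 51, 70, 71])
  (.leaf [5, 6, 35, 43, 47, 51]))
  (.node (.leaf [5, 7, 10, 53, 58, 74])
  (.leaf [5, 8, 20, 36, 56, 67])))
  (.node (.node (.leaf [5, 9, 11, 16, 30, 71])
  (.leaf [5, 12, 15, 29, 34, 41]))
  (.node (.leaf [5, 14, 28, 49, 68, 72])
  (.leaf [5, 18, 22, 26, 65, 70]))))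
  (.node (.node (.node (.leaf [5, 19, 23, 37, 44, 54])
  (.leaf [5, 21, 25, 32, 42, 50]))
  (.node (.leaf [5, 33, 40, 48, 52, 60])
  (.leaf [5, 39, 45, 57, 61, 75])))
  (.node (.node (.leaf [6, 7, 21, 22, 36, 68])
  (.leaf [6, 8, 30, 44, 57, 63]))
  (.node (.leaf [6, 10, 12, 31, 39, 72])
  (.leaf [6, 11, 37, 41, 70, 73])))))
  (.node (.node (.node (.node (.leaf [6, 13, 33, 34, 45, 65])
  (.leaf [6, 15, 46, 62, 69, 75]))
  (.node (.leaf [6, 17, 23, 26, 59, 67])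
  (.leaf [6, 18, 19, 25, 29, 61])))
  (.node (.node (.leaf [6, 20, 24, 32, 54, 55])
  (.leaf [6, 28, 52, 53, 66, 71]))
  (.node (.leaf [7, 8, 23, 32, 47, 70])
  (.leaf [7, 9, 12, 40, 45, 55]))))
  (.node (.node (.node (.leaf [7, 13, 26, 29, 42, 52])
  (.leaf [7, 14, 25, 39, 54, 71]))
  (.node (.leaf [7, 16, 20, 62, 65, 72])
  (.leaf [7, 17, 33, 63, 64, 73])))
  (.node (.node (.leaf [7, 19, 27, 28, 34, 56])
  (.leaf [7, 31, 48, 50, 59, 61]))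
  (.node (.leaf [8, 10, 14, 33, 42, 46])
  (.leaf [8, 11, 15, 35, 50, 72]))))))
  (.node (.node (.node (.node (.node (.leaf [8, 12, 49, 52, 54, 58])
  (.leaf [8, 18, 34, 64, 71, 74]))
  (.node (.leaf [8, 19, 24, 38, 68, 75])
  (.leaf [8, 21, 39, 59, 66, 73])))
  (.node (.node (.leaf [8, 29, 48, 55, 65, 69])
  (.leaf [8, 45, 51, 53, 60, 62]))
  (.node (.leaf [9, 10, 20, 21, 44, 47])
  (.leaf [9, 14, 18, 51, 58, 63]))))
  (.node (.node (.node (.leaf [9, 15, 17, 28, 42, 65])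
  (.leaf [9, 22, 34, 57, 66, 67]))
  (.node (.leaf [9, 23, 43, 52, 73, 75])
  (.leaf [9, 25, 33, 35, 59, 74])))
  (.node (.node (.leaf [9, 26, 41, 46, 53, 68])
  (.leaf [9, 31, 32, 36, 64, 69]))
  (.node (.leaf [10, 11, 26, 54, 57, 64])
  (.leaf [10, 13, 55, 56, 71, 75])))))
  (.node (.node (.node (.node (.leaf [10, 16, 18, 41, 43, 59])
  (.leaf [10, 17, 27, 30, 48, 70]))
  (.node (.leaf [10, 23, 40, 61, 68, 69])
  (.leaf [10, 24, 34, 35, 60, 63])))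
  (.node (.node (.leaf [10, 28, 29, 36, 38, 62])
  (.leaf [11, 13, 18, 23, 49, 53]))
  (.node (.leaf [11, 14, 19, 55, 59, 62])
  (.leaf [11, 17, 20, 29, 40, 75]))))
  (.node (.node (.node (.leaf [11, 22, 25, 27, 45, 46])
  (.leaf [11, 31, 47, 58, 65, 68]))
  (.node (.leaf [11, 34, 36, 43, 44, 48])
  (.leaf [12, 13, 19, 22, 47, 64])))
  (.node (.node (.leaf [12, 16, 24, 36, 51, 73])
  (.leaf [12, 17, 44, 50, 69, 74]))
  (.node (.leaf [12, 20, 53, 57, 59, 70])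
  (.leaf [12, 23, 28, 35, 46, 48])))))))

def d76_2 : BT :=
  (.node (.node (.node (.node (.node (.leaf [12, 27, 32, 38, 67, 71])
  (.node (.leaf [13, 14, 36, 37, 50, 57])
  (.leaf [13, 15, 39, 40, 58, 67])))
  (.node (.node (.leaf [13, 20, 25, 28, 60, 73])
  (.leaf [13, 21, 24, 31, 46, 70]))
  (.node (.leaf [13, 27, 51, 66, 68, 74])
  (.leaf [13, 30, 32, 41, 61, 72]))))
  (.node (.node (.node (.leaf [14, 15, 32, 44, 53, 73])
  (.leaf [14, 17, 22, 31, 38, 52]))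
  (.node (.leaf [14, 21, 30, 60, 67, 69])
  (.leaf [14, 24, 41, 45, 48, 56])))
  (.node (.node (.leaf [14, 29, 35, 64, 66, 70])
  (.leaf [15, 19, 21, 26, 48, 51]))
  (.node (.leaf [15, 20, 27, 43, 49, 64])
  (.leaf [15, 23, 31, 55, 63, 66])))))
  (.node (.node (.node (.node (.leaf [15, 36, 47, 60, 61, 71])
  (.leaf [16, 19, 46, 49, 63, 67]))
  (.node (.leaf [16, 21, 28, 37, 55, 74])
  (.leaf [16, 22, 23, 29, 50, 60])))
  (.node (.node (.leaf [16, 32, 48, 58, 66, 75])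
  (.leaf [16, 34, 39, 52, 69, 70]))
  (.node (.leaf [16, 42, 53, 56, 61, 64])
  (.leaf [17, 18, 32, 56, 60, 68]))))
  (.node (.node (.node (.leaf [17, 19, 35, 36, 39, 53])
  (.leaf [17, 21, 34, 49, 61, 62]))
  (.node (.leaf [17, 25, 41, 51, 55, 57])
  (.leaf [17, 37, 46, 58, 71, 72])))
  (.node (.node (.leaf [18, 27, 35, 42, 54, 69])
  (.leaf [18, 28, 31, 44, 45, 67]))
  (.node (.leaf [18, 37, 40, 47, 62, 66])
  (.leaf [18, 38, 48, 57, 72, 73]))))))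
  (.node (.node (.node (.node (.leaf [19, 32, 52, 57, 65, 74])
  (.node (.leaf [20, 26, 33, 38, 61, 66])
  (.leaf [20, 30, 35, 45, 52, 68])))
  (.node (.node (.leaf [20, 31, 34, 37, 42, 51])
  (.leaf [21, 38, 40, 43, 53, 54]))
  (.node (.leaf [22, 24, 33, 37, 53, 69])
  (.leaf [22, 30, 39, 43, 62, 74]))))
  (.node (.node (.node (.leaf [22, 35, 55, 58, 61, 73])
  (.leaf [23, 24, 42, 57, 62, 71]))
  (.node (.leaf [23, 25, 30, 34, 38, 58])
  (.leaf [24, 25, 40, 44, 64, 65])))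
  (.node (.node (.leaf [24, 26, 28, 43, 50, 58])
  (.leaf [24, 27, 47, 52, 59, 72]))
  (.node (.leaf [25, 43, 56, 66, 69, 72])
  (.leaf [26, 27, 39, 44, 55, 60])))))
  (.node (.node (.node (.node (.leaf [26, 36, 40, 63, 72, 74])
  (.leaf [26, 45, 49, 69, 71, 73]))
  (.node (.leaf [27, 50, 53, 63, 65, 75])
  (.leaf [28, 30, 51, 59, 64, 75])))
  (.node (.node (.leaf [29, 32, 37, 43, 45, 63])
  (.leaf [29, 33, 51, 54, 67, 72]))
  (.node (.leaf [29, 46, 47, 56, 73, 74])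
  (.leaf [30, 33, 47, 49, 50, 55]))))
  (.node (.node (.node (.leaf [30, 36, 46, 54, 65, 66])
  (.leaf [31, 35, 40, 49, 56, 57]))
  (.node (.leaf [31, 41, 54, 60, 74, 75])
  (.leaf [33, 44, 56, 58, 62, 70])))
  (.node (.node (.leaf [37, 38, 49, 59, 60, 65])
  (.leaf [38, 39, 41, 42, 47, 63]))
  (.node (.leaf [41, 50, 52, 62, 64, 67])
  (.leaf [42, 43, 55, 67, 68, 70])))))))

def d76 : BT := (.node d76_0 (.node d76_1 d76_2))

theorem s2_d76 : ∃ 𝓑 : Set (Finset (Fin 76)), IsS2 (Fin 76) 6 𝓑 := by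
  obtain ⟨𝓑, h1, h2, h3⟩ := cov_of_tree 6 76 0 d76 [] (by decide +kernel) (by decide +kernel)
    (by decide +kernel) (by decide +kernel) (by decide +kernel) (by decide +kernel)
  refine ⟨𝓑, h1, ?_⟩
  intro a b hab
  obtain ⟨B, hB, ha, hb, hu⟩ := h3 a b hab (by simp)
  exact ⟨B, ⟨hB, ha, hb⟩, fun D hD => hu D hD.1 hD.2.1 hD.2.2⟩

end Pool.Agent.TH848.Rec
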