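import Pool.Agent.TH848.Rec.Basic

/-!
Filling an incomplete transversal design with incomplete pairwise balanced designs.
-/

set_option autoImplicit false

namespace Pool.Agent.TH848.Rec

open Pool.Agent.H816R2.KM2 Pool.Agent.TH848.KM

/-- An incomplete transversal design with `k` groups of type `X`, written as an orthogonal array:
two points of different groups which are not both in the hole `H` lie in exactly one member, and no
member has two points in the hole. -/
def ITD (k : ℕ) (X : Type) (H : X → Prop) (T : Set (Fin k → X)) : Prop :=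
  (∀ t ∈ T, ∀ i j, i ≠ j → ¬ (H (t i) ∧ H (t j))) ∧
  ∀ i j, i ≠ j → ∀ a b, ¬ (H a ∧ H b) → ∃ t ∈ T, t i = a ∧ t j = b ∧
    ∀ s ∈ T, s i = a → s j = b → s = t

theorem itd_equiv {k : ℕ} {X X' : Type} {H : X → Prop} {H' : X' → Prop} {T : Set (Fin k → X)}
    (e : X ≃ X') (he : ∀ x, H' (e x) ↔ H x) (h : ITD k X H T) :
    ITD k X' H' {t | (fun i => e.symm (t i)) ∈ T} := by
  refine ⟨?_, ?_⟩
  · intro t ht i j hij
    have := h.1 _ ht i j hij
    rw [← he, ← he, e.apply_symm_apply, e.apply_symm_apply] at this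
    exact this
  · intro i j hij a b hab
    obtain ⟨t, ht, h1, h2, h3⟩ := h.2 i j hij (e.symm a) (e.symm b)
      (by rw [← he, ← he, e.apply_symm_apply, e.apply_symm_apply]; exact hab)
    refine ⟨fun i => e (t i), ?_, ?_, ?_, ?_⟩
    · show (fun i => e.symm (e (t i))) ∈ T
      simpa using ht
    · show e (t i) = a
      rw [h1, e.apply_symm_apply]
    · show e (t j) = b
      rw [h2, e.apply_symm_apply]
    · intro s hs h4 h5
      have := h3 _ hs (by show e.symm (s i) = _; rw [h4]) (by show e.symm (s j) = _; rw [h5])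
      funext l
      rw [← this, e.apply_symm_apply]

theorem itd_prod {k : ℕ} {A Y : Type} {T1 : Set (Fin k → A)} {T2 : Set (Fin k → Y)} (a0 : A)
    (h1 : ITD k A (fun _ => False) T1) (h0 : (fun _ => a0) ∈ T1)
    (h2 : ITD k Y (fun _ => False) T2) :
    ITD k (A × Y) (fun x => x.1 = a0)
      {t | (fun i => (t i).1) ∈ T1 ∧ (fun i => (t i).1) ≠ (fun _ => a0) ∧
        (fun i => (t i).2) ∈ T2} := by
  refine ⟨?_, ?_⟩
  · rintro t ⟨ht1, ht2, -⟩ i j hij ⟨ha, hb⟩
    obtain ⟨s, hs, -, -, hu⟩ := h1.2 i j hij a0 a0 (by simp)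
    apply ht2
    rw [hu _ ht1 ha hb, hu _ h0 rfl rfl]
  · intro i j hij a b hab
    obtain ⟨s, hs, hs1, hs2, hu⟩ := h1.2 i j hij a.1 b.1 (by simp)
    obtain ⟨r, hr, hr1, hr2, hv⟩ := h2.2 i j hij a.2 b.2 (by simp)
    refine ⟨fun l => (s l, r l), ⟨hs, ?_, hr⟩, ?_, ?_, ?_⟩
    · intro h
      apply hab
      have e1 := congrFun h i
      have e2 := congrFun h j
      exact ⟨hs1.symm.trans e1, hs2.symm.trans e2⟩
    · show (s i, r i) = a
      rw [hs1, hr1]
    · show (s j, r j) = b
      rw [hs2, hr2]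
    · rintro t ⟨ht1, -, ht2⟩ ha hb
      have e1 := hu _ ht1 (by show (t i).1 = _; rw [ha]) (by show (t j).1 = _; rw [hb])
      have e2 := hv _ ht2 (by show (t i).2 = _; rw [ha]) (by show (t j).2 = _; rw [hb])
      funext l
      rw [← e1, ← e2]

theorem itd_of_fun {k n : ℕ} (f : Fin n × Fin n → Fin k → Fin n)
    (h : ∀ i j, i ≠ j → ∀ a b, ∃ p, f p i = a ∧ f p j = b) :
    ITD k (Fin n) (fun _ => False) (Set.range f) := by
  refine ⟨fun _ _ _ _ _ h => h.1, ?_⟩
  intro i j hij a b _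
  obtain ⟨p, hp1, hp2⟩ := h i j hij a b
  refine ⟨f p, ⟨p, rfl⟩, hp1, hp2, ?_⟩
  rintro s ⟨q, rfl⟩ hq1 hq2
  have hs : Function.Surjective (fun p : Fin n × Fin n => (f p i, f p j)) := by
    rintro ⟨c, d⟩
    obtain ⟨r, hr1, hr2⟩ := h i j hij c d
    exact ⟨r, by show (f r i, f r j) = (c, d); rw [hr1, hr2]⟩
  have hi := Finite.injective_iff_surjective.2 hs
  have : q = p := hi (by show (f q i, f q j) = (f p i, f p j); rw [hp1, hp2, hq1, hq2])
  rw [this]

section fill

variable {k : ℕ} {Y Z W : Type}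

/-- the embedding of the points of the incomplete design on the group `i` -/
def gI (k : ℕ) (Y Z W : Type) (i : Fin k) : Z ⊕ (Y ⊕ W) ↪ (Fin k × (Y ⊕ Z)) ⊕ W where
  toFun
    | .inl z => .inl (i, .inr z)
    | .inr (.inl y) => .inl (i, .inl y)
    | .inr (.inr w) => .inr w
  inj' := by
    rintro (z | y | w) (z' | y' | w') h <;> simp_all

/-- the embedding of the points of the hole -/
def fH (k : ℕ) (Y Z W : Type) : (Fin k × Y) ⊕ W ↪ (Fin k × (Y ⊕ Z)) ⊕ W where
  toFun
    | .inl (i, y) => .inl (i, .inl y)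
    | .inr w => .inr w
  inj' := by
    rintro (⟨i, y⟩ | w) (⟨i', y'⟩ | w') h <;> simp_all

/-- the points of the hole -/
def inH : (Fin k × (Y ⊕ Z)) ⊕ W → Bool
  | .inl (_, .inl _) => true
  | .inl (_, .inr _) => false
  | .inr _ => true

/-- the kind of the blocks covering a pair -/
def tau (a b : (Fin k × (Y ⊕ Z)) ⊕ W) : Option (Option (Fin k)) :=
  if inH a = true ∧ inH b = true then none else
  match a, b with
  | .inl (i, _), .inl (j, _) => if i = j then some (some i) else some none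
  | .inl (i, _), .inr _ => some (some i)
  | .inr _, .inl (j, _) => some (some j)
  | .inr _, .inr _ => none

theorem fill [DecidableEq Y] [DecidableEq Z] [DecidableEq W]
    (hT : ∃ T : Set (Fin k → Y ⊕ Z), ITD k (Y ⊕ Z) (fun x => x.isLeft = true) T)
    (hI : ∃ 𝓑 : Set (Finset (Z ⊕ (Y ⊕ W))), Cov (Z ⊕ (Y ⊕ W)) k
      (fun x y => ¬ (x.isRight = true ∧ y.isRight = true)) 𝓑)
    (hF : ∃ 𝓑 : Set (Finset ((Fin k × Y) ⊕ W)), IsS2 ((Fin k × Y) ⊕ W) k 𝓑) :
    ∃ 𝓑 : Set (Finset ((Fin k × (Y ⊕ Z)) ⊕ W)), IsS2 ((Fin k × (Y ⊕ Z)) ⊕ W) k 𝓑 := by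
  classical
  obtain ⟨T, hT⟩ := hT
  obtain ⟨BI, hI⟩ := hI
  obtain ⟨BF, hF⟩ := hF
  let V := (Fin k × (Y ⊕ Z)) ⊕ W
  -- the transversal blocks
  let bt : (Fin k → Y ⊕ Z) → Finset V := fun t => Finset.univ.map
    ⟨fun i => Sum.inl (i, t i), fun i j h => by simpa using (Prod.mk.inj (Sum.inl.inj h)).1⟩
  have hbt : ∀ t i x, (Sum.inl (i, x) : V) ∈ bt t ↔ x = t i := by
    intro t i x
    simp only [bt, Finset.mem_map, Finset.mem_univ, true_and, Function.Embedding.coeFn_mk]
    constructor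
    · rintro ⟨j, hj⟩
      obtain ⟨rfl, h2⟩ := Prod.mk.inj (Sum.inl.inj hj)
      exact h2.symm
    · intro h
      exact ⟨i, by rw [h]⟩
  have hbt' : ∀ t w, (Sum.inr w : V) ∉ bt t := by
    intro t w
    simp [bt]
  have hTc : Cov V k (fun a b => ∃ i j x y, a = Sum.inl (i, x) ∧ b = Sum.inl (j, y) ∧ i ≠ j ∧
      ¬ (x.isLeft = true ∧ y.isLeft = true)) {C | ∃ t ∈ T, C = bt t} := by
    refine ⟨?_, ?_, ?_⟩
    · rintro C ⟨t, ht, rfl⟩
      simp [bt]
    · rintro C ⟨t, ht, rfl⟩ a ha b hb hab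
      rcases a with ⟨i, x⟩ | w
      · rcases b with ⟨j, y⟩ | w
        · rw [hbt] at ha hb
          have hij : i ≠ j := by
            rintro rfl
            exact hab (by rw [ha, hb])
          exact ⟨i, j, x, y, rfl, rfl, hij, by rw [ha, hb]; exact hT.1 t ht i j hij⟩
        · exact absurd hb (hbt' t w)
      · exact absurd ha (hbt' t w)
    · rintro a b hab ⟨i, j, x, y, rfl, rfl, hij, hxy⟩
      obtain ⟨t, ht, h1, h2, hu⟩ := hT.2 i j hij x y hxy
      refine ⟨bt t, ⟨t, ht, rfl⟩, (hbt _ _ _).2 h1.symm, (hbt _ _ _).2 h2.symm, ?_⟩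
      rintro D ⟨s, hs, rfl⟩ ha hb
      rw [hbt] at ha hb
      rw [hu s hs ha.symm hb.symm]
  refine isS2_of_cover (ι := Option (Option (Fin k)))
    (fun c => match c with
      | none => fun a b => ∃ x y, fH k Y Z W x = a ∧ fH k Y Z W y = b ∧ True
      | some none => fun a b => ∃ i j x y, a = Sum.inl (i, x) ∧ b = Sum.inl (j, y) ∧ i ≠ j ∧
          ¬ (x.isLeft = true ∧ y.isLeft = true)
      | some (some i) => fun a b => ∃ x y, gI k Y Z W i x = a ∧ gI k Y Z W i y = b ∧
          ¬ (x.isRight = true ∧ y.isRight = true))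
    (fun c => match c with
      | none => {C | ∃ B ∈ BF, C = B.map (fH k Y Z W)}
      | some none => {C | ∃ t ∈ T, C = bt t}
      | some (some i) => {C | ∃ B ∈ BI, C = B.map (gI k Y Z W i)})
    ?_ tau ?_ ?_
  · rintro (_ | _ | i)
    · exact cov_map (fH k Y Z W) (cov_of_isS2 hF)
    · exact hTc
    · exact cov_map (gI k Y Z W i) hI
  · rintro (⟨i, x | x⟩ | w) (⟨j, y | y⟩ | w') hab
    · exact ⟨.inl (i, x), .inl (j, y), rfl, rfl, trivial⟩
    · by_cases hij : i = j
      · subst hij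
        have : tau (k := k) (Y := Y) (Z := Z) (W := W) (.inl (i, .inl x)) (.inl (i, .inr y)) =
          some (some i) := by simp [tau, inH]
        rw [this]
        exact ⟨.inr (.inl x), .inl y, rfl, rfl, by simp⟩
      · have : tau (k := k) (Y := Y) (Z := Z) (W := W) (.inl (i, .inl x)) (.inl (j, .inr y)) =
          some none := by simp [tau, inH, hij]
        rw [this]
        exact ⟨i, j, _, _, rfl, rfl, hij, by simp⟩
    · exact ⟨.inl (i, x), .inr w', rfl, rfl, trivial⟩
    · by_cases hij : i = j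
      · subst hij
        have : tau (k := k) (Y := Y) (Z := Z) (W := W) (.inl (i, .inr x)) (.inl (i, .inl y)) =
          some (some i) := by simp [tau, inH]
        rw [this]
        exact ⟨.inl x, .inr (.inl y), rfl, rfl, by simp⟩
      · have : tau (k := k) (Y := Y) (Z := Z) (W := W) (.inl (i, .inr x)) (.inl (j, .inl y)) =
          some none := by simp [tau, inH, hij]
        rw [this]
        exact ⟨i, j, _, _, rfl, rfl, hij, by simp⟩
    · by_cases hij : i = j
      · subst hij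
        have : tau (k := k) (Y := Y) (Z := Z) (W := W) (.inl (i, .inr x)) (.inl (i, .inr y)) =
          some (some i) := by simp [tau, inH]
        rw [this]
        exact ⟨.inl x, .inl y, rfl, rfl, by simp⟩
      · have : tau (k := k) (Y := Y) (Z := Z) (W := W) (.inl (i, .inr x)) (.inl (j, .inr y)) =
          some none := by simp [tau, inH, hij]
        rw [this]
        exact ⟨i, j, _, _, rfl, rfl, hij, by simp⟩
    · have : tau (k := k) (Y := Y) (Z := Z) (W := W) (.inl (i, .inr x)) (.inr w') =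
        some (some i) := by simp [tau, inH]
      rw [this]
      exact ⟨.inl x, .inr (.inr w'), rfl, rfl, by simp⟩
    · exact ⟨.inr w, .inl (j, y), rfl, rfl, trivial⟩
    · have : tau (k := k) (Y := Y) (Z := Z) (W := W) (.inr w) (.inl (j, .inr y)) =
        some (some j) := by simp [tau, inH]
      rw [this]
      exact ⟨.inr (.inr w), .inl y, rfl, rfl, by simp⟩
    · exact ⟨.inr w, .inr w', rfl, rfl, trivial⟩
  · rintro a b (_ | _ | i) hab h
    · obtain ⟨x, y, rfl, rfl, -⟩ := h
      rcases x with ⟨i, x⟩ | w <;> rcases y with ⟨j, y⟩ | w' <;> simp [tau, inH, fH]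
    · obtain ⟨i, j, x, y, rfl, rfl, hij, hxy⟩ := h
      rcases x with x | x <;> rcases y with y | y <;> simp_all [tau, inH]
    · obtain ⟨x, y, rfl, rfl, hxy⟩ := h
      rcases x with x | x | x <;> rcases y with y | y | y <;> simp_all [tau, inH, gI]

end fill

end Pool.Agent.TH848.Rec
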