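import Pool.Agent.TH848.Rec.S796
import Pool.Agent.TH848.KM.K8v225

/-!
Group divisible designs from transversal designs, their inflation and filling; Steiner systems
`S(2,8,1793)` and `S(2,8,1961)` from a Steiner system `S(2,8,225)`.
-/

set_option autoImplicit false
set_option maxRecDepth 100000

namespace Pool.Agent.TH848.Rec

open Pool.Agent.H816R2.KM2 Pool.Agent.TH848.KM

theorem td_prod {k : ℕ} {A Y : Type} {T1 : Set (Fin k → A)} {T2 : Set (Fin k → Y)}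
    (h1 : ITD k A (fun _ => False) T1) (h2 : ITD k Y (fun _ => False) T2) :
    ITD k (A × Y) (fun _ => False)
      {t | (fun i => (t i).1) ∈ T1 ∧ (fun i => (t i).2) ∈ T2} := by
  refine ⟨fun _ _ _ _ _ h => h.1, ?_⟩
  intro i j hij a b _
  obtain ⟨s, hs, hs1, hs2, hu⟩ := h1.2 i j hij a.1 b.1 (by simp)
  obtain ⟨r, hr, hr1, hr2, hv⟩ := h2.2 i j hij a.2 b.2 (by simp)
  refine ⟨fun l => (s l, r l), ⟨hs, hr⟩, ?_, ?_, ?_⟩
  · show (s i, r i) = a
    rw [hs1, hr1]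
  · show (s j, r j) = b
    rw [hs2, hr2]
  · rintro t ⟨ht1, ht2⟩ ha hb
    have e1 := hu _ ht1 (by show (t i).1 = _; rw [ha]) (by show (t j).1 = _; rw [hb])
    have e2 := hv _ ht2 (by show (t i).2 = _; rw [ha]) (by show (t j).2 = _; rw [hb])
    funext l
    rw [← e1, ← e2]

/-- the block of a row of an orthogonal array -/
def bt {n : ℕ} {X : Type} (t : Fin n → X) : Finset (Fin n × X) :=
  Finset.univ.map ⟨fun i => (i, t i), fun _ _ h => (Prod.mk.inj h).1⟩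

theorem mem_bt {n : ℕ} {X : Type} (t : Fin n → X) (i : Fin n) (x : X) :
    (i, x) ∈ bt t ↔ x = t i := by
  simp only [bt, Finset.mem_map, Finset.mem_univ, true_and, Function.Embedding.coeFn_mk]
  constructor
  · rintro ⟨j, hj⟩
    obtain ⟨rfl, h2⟩ := Prod.mk.inj hj
    exact h2.symm
  · intro h
    exact ⟨i, by rw [h]⟩

theorem gdd_of_td {n : ℕ} {X : Type} [DecidableEq X] {T : Set (Fin n → X)}
    (h : ITD n X (fun _ => False) T) :
    Cov (Fin n × X) n (fun x y => x.1 ≠ y.1) {C | ∃ t ∈ T, C = bt t} := by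
  refine ⟨?_, ?_, ?_⟩
  · rintro C ⟨t, ht, rfl⟩
    simp [bt]
  · rintro C ⟨t, ht, rfl⟩ ⟨i, x⟩ ha ⟨j, y⟩ hb hab
    rw [mem_bt] at ha hb
    show i ≠ j
    rintro rfl
    exact hab (by rw [ha, hb])
  · rintro ⟨i, x⟩ ⟨j, y⟩ hab hij
    obtain ⟨t, ht, h1, h2, hu⟩ := h.2 i j hij x y (by simp)
    refine ⟨bt t, ⟨t, ht, rfl⟩, (mem_bt _ _ _).2 h1.symm, (mem_bt _ _ _).2 h2.symm, ?_⟩
    rintro D ⟨s, hs, rfl⟩ ha hb
    rw [mem_bt] at ha hb
    rw [hu s hs ha.symm hb.symm]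

/-- the embedding used for inflation -/
def infl {n : ℕ} {A Y : Type} (t : Fin n → A) : Fin n × Y ↪ Fin n × (A × Y) :=
  ⟨fun p => (p.1, (t p.1, p.2)), fun p q h => by
    obtain ⟨h1, h2⟩ := Prod.mk.inj h
    exact Prod.ext h1 (Prod.mk.inj h2).2⟩

theorem gdd_infl {n k : ℕ} {A Y : Type} [DecidableEq A] [DecidableEq Y] {T : Set (Fin n → A)}
    (h : ITD n A (fun _ => False) T) {D : Set (Finset (Fin n × Y))}
    (hD : Cov (Fin n × Y) k (fun x y => x.1 ≠ y.1) D) :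
    Cov (Fin n × (A × Y)) k (fun x y => x.1 ≠ y.1)
      {C | ∃ t ∈ T, ∃ B ∈ D, C = B.map (infl t)} := by
  have hmem : ∀ (t : Fin n → A) (B : Finset (Fin n × Y)) i a c,
      ((i, (a, c)) : Fin n × (A × Y)) ∈ B.map (infl t) ↔ a = t i ∧ (i, c) ∈ B := by
    intro t B i a c
    rw [Finset.mem_map]
    constructor
    · rintro ⟨⟨j, d⟩, hB, he⟩
      obtain ⟨h1, h2⟩ := Prod.mk.inj he
      obtain ⟨h3, h4⟩ := Prod.mk.inj h2
      simp only at h1 h3 h4
      subst h1 h4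
      exact ⟨h3.symm, hB⟩
    · rintro ⟨rfl, hB⟩
      exact ⟨(i, c), hB, rfl⟩
  refine ⟨?_, ?_, ?_⟩
  · rintro C ⟨t, ht, B, hB, rfl⟩
    rw [Finset.card_map]
    exact hD.1 B hB
  · rintro C ⟨t, ht, B, hB, rfl⟩ ⟨i, a, c⟩ ha ⟨j, b, d⟩ hb hab
    rw [hmem] at ha hb
    show i ≠ j
    rintro rfl
    refine hD.2.1 B hB _ ha.2 _ hb.2 ?_ rfl
    intro hcd
    apply hab
    rw [ha.1, hb.1, (Prod.mk.inj hcd).2]
  · rintro ⟨i, a, c⟩ ⟨j, b, d⟩ hab hij
    obtain ⟨t, ht, h1, h2, hu⟩ := h.2 i j hij a b (by simp)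
    obtain ⟨B, hB, h3, h4, hv⟩ := hD.2.2 (i, c) (j, d) (fun he => hij (Prod.mk.inj he).1) hij
    refine ⟨B.map (infl t), ⟨t, ht, B, hB, rfl⟩, (hmem _ _ _ _ _).2 ⟨h1.symm, h3⟩,
      (hmem _ _ _ _ _).2 ⟨h2.symm, h4⟩, ?_⟩
    rintro C ⟨s, hs, B', hB', rfl⟩ ha hb
    rw [hmem] at ha hb
    rw [hu s hs ha.1.symm hb.1.symm, hv B' hB' ha.2 hb.2]

/-- the embedding of a group together with the extra points -/
def gG (n : ℕ) (X W : Type) (i : Fin n) : X ⊕ W ↪ (Fin n × X) ⊕ W where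
  toFun
    | .inl x => .inl (i, x)
    | .inr w => .inr w
  inj' := by
    rintro (x | w) (x' | w') h <;> simp_all

/-- the kind of the blocks covering a pair -/
def tauG {n : ℕ} {X W : Type} (a b : (Fin n × X) ⊕ W) : Option (Option (Fin n)) :=
  match a, b with
  | .inl (i, _), .inl (j, _) => if i = j then some (some i) else some none
  | .inl (i, _), .inr _ => some (some i)
  | .inr _, .inl (j, _) => some (some j)
  | .inr _, .inr _ => none

theorem fillG {n k : ℕ} {X W : Type} [DecidableEq X] [DecidableEq W]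
    (hG : ∃ 𝓑 : Set (Finset (Fin n × X)), Cov (Fin n × X) k (fun x y => x.1 ≠ y.1) 𝓑)
    (hI : ∃ 𝓑 : Set (Finset (X ⊕ W)), Cov (X ⊕ W) k
      (fun x y => ¬ (x.isRight = true ∧ y.isRight = true)) 𝓑)
    (hW : ∃ 𝓑 : Set (Finset W), IsS2 W k 𝓑) :
    ∃ 𝓑 : Set (Finset ((Fin n × X) ⊕ W)), IsS2 ((Fin n × X) ⊕ W) k 𝓑 := by
  classical
  obtain ⟨BG, hG⟩ := hG
  obtain ⟨BI, hI⟩ := hI
  obtain ⟨BW, hW⟩ := hW
  refine isS2_of_cover (ι := Option (Option (Fin n)))
    (fun c => match c with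
      | none => fun a b => ∃ x y, (Function.Embedding.inr : W ↪ (Fin n × X) ⊕ W) x = a ∧
          (Function.Embedding.inr : W ↪ (Fin n × X) ⊕ W) y = b ∧ True
      | some none => fun a b => ∃ x y, (Function.Embedding.inl : Fin n × X ↪ (Fin n × X) ⊕ W) x = a
          ∧ (Function.Embedding.inl : Fin n × X ↪ (Fin n × X) ⊕ W) y = b ∧ x.1 ≠ y.1
      | some (some i) => fun a b => ∃ x y, gG n X W i x = a ∧ gG n X W i y = b ∧
          ¬ (x.isRight = true ∧ y.isRight = true))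
    (fun c => match c with
      | none => {C | ∃ B ∈ BW, C = B.map Function.Embedding.inr}
      | some none => {C | ∃ B ∈ BG, C = B.map Function.Embedding.inl}
      | some (some i) => {C | ∃ B ∈ BI, C = B.map (gG n X W i)})
    ?_ tauG ?_ ?_
  · rintro (_ | _ | i)
    · exact cov_map _ (cov_of_isS2 hW)
    · exact cov_map _ hG
    · exact cov_map _ hI
  · rintro (⟨i, x⟩ | w) (⟨j, y⟩ | w') hab
    · by_cases hij : i = j
      · subst hij
        have : tauG (n := n) (X := X) (W := W) (.inl (i, x)) (.inl (i, y)) = some (some i) := by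
          simp [tauG]
        rw [this]
        exact ⟨.inl x, .inl y, rfl, rfl, by simp⟩
      · have : tauG (n := n) (X := X) (W := W) (.inl (i, x)) (.inl (j, y)) = some none := by
          simp [tauG, hij]
        rw [this]
        exact ⟨(i, x), (j, y), rfl, rfl, hij⟩
    · exact ⟨.inl x, .inr w', rfl, rfl, by simp⟩
    · exact ⟨.inr w, .inl y, rfl, rfl, by simp⟩
    · exact ⟨w, w', rfl, rfl, trivial⟩
  · rintro a b (_ | _ | i) hab h
    · obtain ⟨x, y, rfl, rfl, -⟩ := h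
      simp [tauG]
    · obtain ⟨⟨i, x⟩, ⟨j, y⟩, rfl, rfl, hxy⟩ := h
      simp only [ne_eq] at hxy
      simp [tauG, hxy]
    · obtain ⟨x, y, rfl, rfl, hxy⟩ := h
      rcases x with x | x <;> rcases y with y | y <;> simp_all [tauG, gG]

/-! ### Arrays with `k` columns -/

/-- the array with entries `g q i mod n`, `q < n²`, and `k` columns -/
def tdk (k n : ℕ) [NeZero n] (g : ℕ → ℕ → ℕ) (p : Fin n × Fin n) (i : Fin k) : Fin n :=
  Fin.ofNat n (g (p.1.val * n + p.2.val) i.val)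

theorem tdk_ok (k n : ℕ) [NeZero n] (g : ℕ → ℕ → ℕ)
    (h : ∀ i j : Fin k, i ≠ j → addBits ((List.range (n * n)).map fun q =>
      (g q i.val % n) * n + g q j.val % n) 0 = 2 ^ (n * n) - 1) :
    ∀ i j : Fin k, i ≠ j → ∀ a b : Fin n, ∃ p, tdk k n g p i = a ∧ tdk k n g p j = b := by
  intro i j hij a b
  have hn : 0 < n := Nat.pos_of_ne_zero (NeZero.ne n)
  have hlt : a.val * n + b.val < n * n := by
    calc a.val * n + b.val < a.val * n + n := by have := b.2; omega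
      _ = (a.val + 1) * n := by ring
      _ ≤ n * n := Nat.mul_le_mul_right _ a.2
  have h1 : Nat.testBit (addBits ((List.range (n * n)).map fun q =>
      (g q i.val % n) * n + g q j.val % n) 0) (a.val * n + b.val) = true := by
    rw [h i j hij, Nat.testBit_two_pow_sub_one, decide_eq_true_eq]
    exact hlt
  rw [addBits_spec] at h1
  rcases h1 with h1 | h1
  · simp at h1
  obtain ⟨q, hq, he⟩ := List.mem_map.1 h1
  rw [List.mem_range] at hq
  have h2 : g q i.val % n < n := Nat.mod_lt _ hn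
  have h3 : g q j.val % n < n := Nat.mod_lt _ hn
  have e1 : g q i.val % n = a.val := by
    have h5 : (g q i.val % n * n + g q j.val % n) / n = (a.val * n + b.val) / n := by rw [he]
    rw [Nat.add_comm (g q i.val % n * n), Nat.add_mul_div_right _ _ hn, Nat.div_eq_of_lt h3,
      Nat.add_comm (a.val * n), Nat.add_mul_div_right _ _ hn, Nat.div_eq_of_lt b.2] at h5
    omega
  have e2 : g q j.val % n = b.val := by
    rw [e1] at he
    omega
  have h4 : q / n < n := Nat.div_lt_of_lt_mul hq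
  refine ⟨(⟨q / n, h4⟩, ⟨q % n, Nat.mod_lt _ hn⟩), ?_, ?_⟩
  · apply Fin.ext
    show g (q / n * n + q % n) i.val % n = a.val
    rw [Nat.div_add_mod', e1]
  · apply Fin.ext
    show g (q / n * n + q % n) j.val % n = b.val
    rw [Nat.div_add_mod', e2]

/-- `x + i y` in `ℤ_n`, the last column being `y` -/
def gp (k n q i : ℕ) : ℕ := if i + 1 = k then q % n else q / n + i * (q % n)

/-- multiplication by the class of `X` in `GF(32) = GF(2)[X]/(X⁵+X²+1)` -/
def xt (y : ℕ) : ℕ := if y < 16 then 2 * y else (2 * y) ^^^ 37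

/-- `x + a y` in `GF(32)`, the last column being `y` -/
def g32 (q i : ℕ) : ℕ :=
  if i = 7 then q % 32 else
    (q / 32) ^^^ (if i % 2 = 1 then q % 32 else 0) ^^^ (if i / 2 % 2 = 1 then xt (q % 32) else 0)
      ^^^ (if i / 4 = 1 then xt (xt (q % 32)) else 0)

theorem gp7_ok : ∀ i j : Fin 8, i ≠ j → addBits ((List.range (7 * 7)).map fun q =>
    (gp 8 7 q i.val % 7) * 7 + gp 8 7 q j.val % 7) 0 = 2 ^ (7 * 7) - 1 := by
  decide +kernel

theorem gp31_ok : ∀ i j : Fin 9, i ≠ j → addBits ((List.range (31 * 31)).map fun q =>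
    (gp 9 31 q i.val % 31) * 31 + gp 9 31 q j.val % 31) 0 = 2 ^ (31 * 31) - 1 := by
  decide +kernel

theorem g32_ok : ∀ i j : Fin 8, i ≠ j → addBits ((List.range (32 * 32)).map fun q =>
    (g32 q i.val % 32) * 32 + g32 q j.val % 32) 0 = 2 ^ (32 * 32) - 1 := by
  decide +kernel

/-- the blocks of a group divisible design of type `7⁹` with block size `8` -/
def t79 : BT :=
  (.node (.node (.node (.node (.node (.leaf [0, 7, 14, 21, 28, 35, 42, 49])
  (.node (.leaf [0, 8, 18, 23, 31, 40, 48, 62])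
  (.leaf [0, 9, 20, 26, 38, 43, 53, 59])))
  (.node (.node (.leaf [0, 10, 16, 34, 39, 47, 50, 58])
  (.leaf [0, 11, 17, 27, 30, 36, 54, 61]))
  (.node (.leaf [0, 12, 15, 24, 32, 44, 55, 60])
  (.leaf [0, 13, 22, 33, 37, 46, 52, 57]))))
  (.node (.node (.node (.leaf [0, 19, 25, 29, 41, 45, 51, 56])
  (.leaf [1, 7, 16, 25, 33, 38, 55, 62]))
  (.node (.leaf [1, 8, 15, 22, 29, 36, 43, 50])
  (.leaf [1, 9, 19, 32, 35, 48, 52, 61])))
  (.node (.node (.leaf [1, 10, 14, 26, 30, 41, 46, 60])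
  (.leaf [1, 11, 24, 34, 40, 42, 51, 59]))
  (.node (.leaf [1, 12, 18, 27, 37, 45, 49, 58])
  (.leaf [1, 13, 17, 23, 28, 47, 53, 56])))))
  (.node (.node (.node (.node (.leaf [1, 20, 21, 31, 39, 44, 54, 57])
  (.leaf [2, 7, 19, 27, 31, 46, 50, 59]))
  (.node (.leaf [2, 8, 26, 28, 39, 45, 55, 61])
  (.leaf [2, 9, 16, 23, 30, 37, 44, 51])))
  (.node (.node (.leaf [2, 10, 20, 22, 32, 40, 49, 56])
  (.leaf [2, 11, 15, 21, 41, 47, 52, 62]))
  (.node (.leaf [2, 12, 17, 25, 34, 35, 43, 57])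
  (.leaf [2, 13, 18, 29, 38, 42, 54, 60]))))
  (.node (.node (.node (.leaf [2, 14, 24, 33, 36, 48, 53, 58])
  (.leaf [3, 7, 23, 32, 41, 43, 54, 58]))
  (.node (.leaf [3, 8, 19, 21, 34, 37, 53, 60])
  (.leaf [3, 9, 15, 27, 33, 39, 42, 56])))
  (.node (.node (.leaf [3, 10, 17, 24, 31, 38, 45, 52])
  (.leaf [3, 11, 16, 26, 29, 48, 49, 57]))
  (.node (.leaf [3, 12, 20, 28, 36, 46, 51, 62])
  (.leaf [3, 13, 14, 25, 40, 44, 50, 61]))))))
  (.node (.node (.node (.node (.node (.leaf [3, 18, 22, 30, 35, 47, 55, 59])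
  (.leaf [4, 7, 20, 24, 29, 37, 47, 61]))
  (.node (.leaf [4, 8, 17, 33, 41, 44, 49, 59])
  (.leaf [4, 9, 14, 22, 34, 45, 54, 62])))
  (.node (.node (.leaf [4, 10, 19, 23, 36, 42, 55, 57])
  (.leaf [4, 11, 18, 25, 32, 39, 46, 53]))
  (.node (.leaf [4, 12, 21, 30, 38, 48, 50, 56])
  (.leaf [4, 13, 15, 26, 31, 35, 51, 58]))))
  (.node (.node (.node (.leaf [4, 16, 27, 28, 40, 43, 52, 60])
  (.leaf [5, 7, 17, 22, 39, 48, 51, 60]))
  (.node (.leaf [5, 8, 20, 25, 30, 42, 52, 58])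
  (.leaf [5, 9, 18, 24, 28, 41, 50, 57])))
  (.node (.node (.leaf [5, 10, 27, 29, 35, 44, 53, 62])
  (.leaf [5, 11, 14, 31, 37, 43, 55, 56]))
  (.node (.leaf [5, 12, 19, 26, 33, 40, 47, 54])
  (.leaf [5, 13, 16, 21, 32, 36, 45, 59])))))
  (.node (.node (.node (.node (.leaf [5, 15, 23, 34, 38, 46, 49, 61])
  (.leaf [6, 7, 15, 30, 40, 45, 53, 57]))
  (.node (.leaf [6, 8, 16, 24, 35, 46, 54, 56])
  (.leaf [6, 9, 25, 31, 36, 47, 49, 60])))
  (.node (.node (.leaf [6, 10, 18, 21, 33, 43, 51, 61])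
  (.leaf [6, 11, 19, 22, 28, 38, 44, 58]))
  (.node (.leaf [6, 12, 14, 23, 29, 39, 52, 59])
  (.leaf [6, 13, 20, 27, 34, 41, 48, 55]))))
  (.node (.node (.node (.leaf [6, 17, 26, 32, 37, 42, 50, 62])
  (.leaf [7, 18, 26, 34, 36, 44, 52, 56]))
  (.node (.leaf [8, 14, 27, 32, 38, 47, 51, 57])
  (.leaf [9, 17, 21, 29, 40, 46, 55, 58])))
  (.node (.node (.leaf [10, 15, 25, 28, 37, 48, 54, 59])
  (.leaf [11, 20, 23, 33, 35, 45, 50, 60]))
  (.node (.leaf [12, 16, 22, 31, 41, 42, 53, 61])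
  (.leaf [13, 19, 24, 30, 39, 43, 49, 62])))))))

end Pool.Agent.TH848.Rec
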